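import Pool.Agent.H68.GC.Step

/-!
The potentials of the robber's birth-death chain.
-/

namespace Pool.Agent.H68.GC

variable (P : Par)

/-- conductance between the blobs `q` and `q + 1` -/
noncomputable def kap (q : ℕ) : ℝ := P.W q * P.W (q + 1)

/-- accumulated source -/
noncomputable def flux (σ : ℕ → ℝ) (q : ℕ) : ℝ :=
  ∑ x ∈ Finset.range (q + 1), P.W x * (dg P x * σ x)

/-- the potential with source `σ` -/
noncomputable def pot (σ : ℕ → ℝ) (q : ℕ) : ℝ :=
  ∑ x ∈ Finset.Ico q P.L, flux P σ x / kap P x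

variable {P}

theorem W_pos (q : ℕ) : (0 : ℝ) < P.W q := by exact_mod_cast P.hW q

theorem kap_pos (q : ℕ) : 0 < kap P q := mul_pos (W_pos q) (W_pos (q + 1))

theorem flux_succ (σ : ℕ → ℝ) (q : ℕ) :
    flux P σ (q + 1) = flux P σ q + P.W (q + 1) * (dg P (q + 1) * σ (q + 1)) := by
  unfold flux; rw [Finset.sum_range_succ]

theorem pot_step (σ : ℕ → ℝ) {q : ℕ} (hq : q < P.L) :
    pot P σ q = flux P σ q / kap P q + pot P σ (q + 1) := by
  unfold pot; rw [Finset.sum_eq_sum_Ico_succ_bot hq]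

theorem pot_L (σ : ℕ → ℝ) : pot P σ P.L = 0 := by simp [pot]

theorem flux_nonneg {σ : ℕ → ℝ} (hσ : ∀ q, 0 ≤ σ q) (q : ℕ) : 0 ≤ flux P σ q :=
  Finset.sum_nonneg fun x _ => mul_nonneg (W_pos x).le (mul_nonneg (dg_pos x).le (hσ x))

theorem pot_nonneg {σ : ℕ → ℝ} (hσ : ∀ q, 0 ≤ σ q) (q : ℕ) : 0 ≤ pot P σ q :=
  Finset.sum_nonneg fun x _ => div_nonneg (flux_nonneg hσ x) (kap_pos x).le

theorem pot_anti {σ : ℕ → ℝ} (hσ : ∀ q, 0 ≤ σ q) {q q' : ℕ} (h : q ≤ q') :
    pot P σ q' ≤ pot P σ q := by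
  unfold pot
  apply Finset.sum_le_sum_of_subset_of_nonneg
  · intro x hx
    rw [Finset.mem_Ico] at hx ⊢
    omega
  · intro x _ _
    exact div_nonneg (flux_nonneg hσ x) (kap_pos x).le

/-- Poisson equation -/
theorem poisson (σ : ℕ → ℝ) {q : ℕ} (hq : q < P.L) :
    wm P q * pot P σ (q - 1) + P.W (q + 1) * pot P σ (q + 1) + pot P σ q =
      dg P q * (pot P σ q - σ q) := by
  have hW := W_pos (P := P) q
  have hW1 := W_pos (P := P) (q + 1)
  have h1 := pot_step σ hq
  have h2 : (P.W (q + 1) : ℝ) * (pot P σ q - pot P σ (q + 1)) = flux P σ q / P.W q := by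
    rw [h1]; unfold kap; field_simp; ring
  rcases Nat.eq_zero_or_pos q with h0 | hpos
  · subst h0
    have h3 : flux P σ 0 = P.W 0 * (dg P 0 * σ 0) := by simp [flux]
    rw [h3] at h2
    have h4 : (P.W 0 : ℝ) * (dg P 0 * σ 0) / P.W 0 = dg P 0 * σ 0 := by
      field_simp
    rw [h4] at h2
    have h5 : dg P 0 = P.W (0 + 1) + 1 := by simp [dg, wm]
    have h6 : (wm P 0 : ℝ) = 0 := by simp [wm]
    rw [h6]
    rw [mul_sub, ← h2, h5]
    ring
  · obtain ⟨r, rfl⟩ : ∃ r, q = r + 1 := ⟨q - 1, by omega⟩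
    have hWr := W_pos (P := P) r
    have h3 := pot_step σ (show r < P.L by omega)
    have h4 : (P.W r : ℝ) * (pot P σ r - pot P σ (r + 1)) = flux P σ r / P.W (r + 1) := by
      rw [h3]; unfold kap; field_simp; ring
    have h5 : flux P σ (r + 1) / P.W (r + 1) = flux P σ r / P.W (r + 1) +
        dg P (r + 1) * σ (r + 1) := by
      rw [flux_succ]; field_simp
    have h6 : (wm P (r + 1) : ℝ) = P.W r := by simp [wm]
    have h7 : dg P (r + 1) = P.W r + P.W (r + 1 + 1) + 1 := by simp [dg, wm]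
    rw [h5, ← h4] at h2
    rw [h6, Nat.add_sub_cancel, mul_sub]
    have h8 : dg P (r + 1) * σ (r + 1) = P.W (r + 1 + 1) * (pot P σ (r + 1) - pot P σ (r + 1 + 1)) -
        P.W r * (pot P σ r - pot P σ (r + 1)) := by linarith
    rw [h8, h7]
    ring

variable (P)

/-- the probability that the cop leaves the rung -/
noncomputable def ep : ℝ := 1 / (P.M + 1)

noncomputable def hh : ℕ → ℝ := pot P fun _ => 1 / 2

noncomputable def HH : ℕ → ℝ := pot P fun q => ep P * (1 - 1 / dg P q) + 1 / dg P q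

noncomputable def sq (D : ℝ) : ℝ := (1 - ep P) * D ^ 2 + ep P * (1 + D) ^ 2

noncomputable def Gam (q : ℕ) : ℝ :=
  (wm P q * sq P (HH P (q - 1) - HH P q) + P.W (q + 1) * sq P (HH P (q + 1) - HH P q) + 1) / dg P q

noncomputable def UU : ℕ → ℝ := pot P (Gam P)

noncomputable def Phi (A : ℝ) (i q : ℕ) : ℝ :=
  hh P q - A * ((HH P 0 - i - HH P q) ^ 2 + UU P q)

variable {P}

theorem ep_pos : 0 < ep P := by unfold ep; positivity

theorem ep_le_one : ep P ≤ 1 := by
  unfold ep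
  rw [div_le_one (by positivity)]
  have : (0 : ℝ) ≤ P.M := by positivity
  linarith

theorem one_le_dg (q : ℕ) : 1 ≤ dg P q := by
  unfold dg
  have h1 : (0 : ℝ) ≤ wm P q := by positivity
  have h2 : (0 : ℝ) ≤ P.W (q + 1) := by positivity
  linarith

theorem sourceH_nonneg (q : ℕ) : 0 ≤ ep P * (1 - 1 / dg P q) + 1 / dg P q := by
  have h1 := one_le_dg (P := P) q
  have h2 : 1 / dg P q ≤ 1 := by rw [div_le_one (by linarith)]; exact h1
  have h3 : 0 ≤ 1 / dg P q := by positivity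
  have h4 := ep_pos (P := P)
  have : 0 ≤ ep P * (1 - 1 / dg P q) := mul_nonneg h4.le (by linarith)
  linarith

theorem sq_nonneg' (D : ℝ) : 0 ≤ sq P D := by
  unfold sq
  have h1 := ep_pos (P := P)
  have h2 := ep_le_one (P := P)
  have := mul_nonneg (sub_nonneg.mpr h2) (sq_nonneg D)
  have := mul_nonneg h1.le (sq_nonneg (1 + D))
  linarith

theorem Gam_nonneg (q : ℕ) : 0 ≤ Gam P q := by
  unfold Gam
  apply div_nonneg _ (dg_pos q).le
  have h1 := sq_nonneg' (P := P) (HH P (q - 1) - HH P q)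
  have h2 := sq_nonneg' (P := P) (HH P (q + 1) - HH P q)
  positivity

/-- the potential is harmonic up to `1/2` for the joint chain -/
theorem core_hb (A : ℝ) (i : ℕ) {q : ℕ} (hq : q < P.L) :
    wm P q * ((1 - ep P) * Phi P A i (q - 1) + ep P * Phi P A (i + 1) (q - 1)) +
      P.W (q + 1) * ((1 - ep P) * Phi P A i (q + 1) + ep P * Phi P A (i + 1) (q + 1)) +
      Phi P A (i + 1) q = dg P q * (Phi P A i q - 1 / 2) := by
  have e1 := poisson (P := P) (fun _ => (1 / 2 : ℝ)) hq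
  have e2 := poisson (P := P) (fun q => ep P * (1 - 1 / dg P q) + 1 / dg P q) hq
  have e3 := poisson (P := P) (Gam P) hq
  change wm P q * hh P (q - 1) + P.W (q + 1) * hh P (q + 1) + hh P q = _ * (hh P q - _) at e1
  change wm P q * HH P (q - 1) + P.W (q + 1) * HH P (q + 1) + HH P q = _ * (HH P q - _) at e2
  change wm P q * UU P (q - 1) + P.W (q + 1) * UU P (q + 1) + UU P q = _ * (UU P q - _) at e3
  have hd := dg_pos (P := P) q
  have hdd : dg P q = wm P q + P.W (q + 1) + 1 := rfl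
  have e2' : dg P q * (ep P * (1 - 1 / dg P q) + 1 / dg P q) = ep P * (dg P q - 1) + 1 := by
    field_simp
  have e3' : dg P q * Gam P q = wm P q * sq P (HH P (q - 1) - HH P q) +
      P.W (q + 1) * sq P (HH P (q + 1) - HH P q) + 1 := by
    unfold Gam; field_simp
  rw [mul_sub, e2'] at e2
  rw [mul_sub, e3'] at e3
  unfold sq at e3
  unfold Phi
  push_cast
  set a := (wm P q : ℝ)
  set b := (P.W (q + 1) : ℝ)
  rw [hdd] at e1 e2 e3 ⊢
  linear_combination e1 - A * e3 + A * (2 * (HH P 0 - i - HH P q)) * e2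

/-- the same when the cop does not bounce -/
theorem core_th (A : ℝ) (i : ℕ) {q : ℕ} (hq : q < P.L) :
    wm P q * Phi P A i (q - 1) + P.W (q + 1) * Phi P A i (q + 1) + Phi P A (i + 1) q =
      dg P q * (Phi P A i q - 1 / 2) - 2 * A * ep P * (HH P 0 - i - HH P q) * (dg P q - 1) +
      A * ep P * ((dg P q - 1) * (1 - 2 * ep P) - 2) := by
  have e1 := poisson (P := P) (fun _ => (1 / 2 : ℝ)) hq
  have e2 := poisson (P := P) (fun q => ep P * (1 - 1 / dg P q) + 1 / dg P q) hq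
  have e3 := poisson (P := P) (Gam P) hq
  change wm P q * hh P (q - 1) + P.W (q + 1) * hh P (q + 1) + hh P q = _ * (hh P q - _) at e1
  change wm P q * HH P (q - 1) + P.W (q + 1) * HH P (q + 1) + HH P q = _ * (HH P q - _) at e2
  change wm P q * UU P (q - 1) + P.W (q + 1) * UU P (q + 1) + UU P q = _ * (UU P q - _) at e3
  have hd := dg_pos (P := P) q
  have hdd : dg P q = wm P q + P.W (q + 1) + 1 := rfl
  have e2' : dg P q * (ep P * (1 - 1 / dg P q) + 1 / dg P q) = ep P * (dg P q - 1) + 1 := by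
    field_simp
  have e3' : dg P q * Gam P q = wm P q * sq P (HH P (q - 1) - HH P q) +
      P.W (q + 1) * sq P (HH P (q + 1) - HH P q) + 1 := by
    unfold Gam; field_simp
  rw [mul_sub, e2'] at e2
  rw [mul_sub, e3'] at e3
  unfold sq at e3
  unfold Phi
  push_cast
  set a := (wm P q : ℝ)
  set b := (P.W (q + 1) : ℝ)
  rw [hdd] at e1 e2 e3 ⊢
  linear_combination e1 - A * e3 + A * (2 * (HH P 0 - i - HH P q)) * e2 + 2 * A * ep P * e2

/-- The hypotheses needed for the potential to be good. -/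
structure Hyp (P : Par) (om tau c : ℝ) : Prop where
  om_pos : 0 < om
  c_def : c = 2 * ep P * hh P 0 / om
  s1 : ∀ q, q < P.L → (c + hh P 0 / (P.W q + 1)) / dg P q + ep P * c ≤ 1 / 2
  s3 : ∀ q, q < P.L → 8 ≤ dg P q
  s3' : ep P ≤ 1 / 8
  s4 : ∀ q, q ≤ P.L → |HH P 0 - HH P q - q / 8| ≤ tau
  s5 : 2 * (om + tau) + 4 ≤ P.u

theorem hh_nonneg (q : ℕ) : 0 ≤ hh P q := pot_nonneg (fun _ => by norm_num) q

theorem UU_nonneg (q : ℕ) : 0 ≤ UU P q := pot_nonneg Gam_nonneg q

theorem x_lt {om tau c : ℝ} (H : Hyp P om tau c) {i q : ℕ}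
    (h : 0 < Phi P (hh P 0 / om ^ 2) i q) : |HH P 0 - i - HH P q| < om := by
  have hom := H.om_pos
  have h0 := hh_nonneg (P := P) 0
  have hA : 0 ≤ hh P 0 / om ^ 2 := by positivity
  have h1 : hh P q ≤ hh P 0 := pot_anti (fun _ => by norm_num) (Nat.zero_le q)
  unfold Phi at h
  have h2 : 0 ≤ hh P 0 / om ^ 2 * UU P q := mul_nonneg hA (UU_nonneg q)
  have h3 : hh P 0 / om ^ 2 * (HH P 0 - i - HH P q) ^ 2 < hh P 0 := by
    rw [mul_add] at h; linarith
  have h4 : 0 < hh P 0 := by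
    rcases h0.lt_or_eq with h5 | h5
    · exact h5
    · rw [← h5] at h3; simp at h3
  have h5 : (HH P 0 - i - HH P q) ^ 2 < om ^ 2 := by
    rw [div_mul_eq_mul_div, div_lt_iff₀ (by positivity)] at h3
    exact lt_of_mul_lt_mul_left h3 h4.le
  rw [← sq_abs] at h5
  exact lt_of_pow_lt_pow_left₀ 2 hom.le h5

theorem good_of_hyp {om tau c : ℝ} (H : Hyp P om tau c) :
    Good P (Phi P (hh P 0 / om ^ 2)) c (hh P 0) := by
  have hom := H.om_pos
  have h0 := hh_nonneg (P := P) 0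
  have hA : 0 ≤ hh P 0 / om ^ 2 := by positivity
  have hep := ep_pos (P := P)
  have hc : 0 ≤ c := by rw [H.c_def]; positivity
  have hepM : 1 / ((P.M : ℝ) + 1) = ep P := rfl
  have hM1 : (0 : ℝ) < (P.M : ℝ) + 1 := by positivity
  refine ⟨hc, h0, ?_, ?_, ?_, ?_, ?_⟩
  · intro i q hq h
    have h1 := x_lt H h
    have h2 := H.s4 q hq
    have h3 := H.s5
    have hb : (P.b q : ℝ) = ((q / 4 : ℕ) : ℝ) + P.u := by unfold Par.b; push_cast; rfl
    have h4 : ((q / 4 : ℕ) : ℝ) ≤ q / 4 := Nat.cast_div_le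
    have h5 : (q : ℝ) / 4 ≤ ((q / 4 : ℕ) : ℝ) + 3 / 4 := by
      have : q ≤ 4 * (q / 4) + 3 := by omega
      have : (q : ℝ) ≤ 4 * ((q / 4 : ℕ) : ℝ) + 3 := by exact_mod_cast this
      linarith
    rw [abs_lt] at h1
    rw [abs_le] at h2
    constructor
    · have : (P.b q : ℝ) + 4 ≤ 2 * i + 2 * P.u := by
        rw [hb]; linarith [h1.1, h1.2, h2.1, h2.2]
      exact_mod_cast this
    · have : (2 * i + 3 : ℝ) ≤ P.b q := by
        rw [hb]; linarith [h1.1, h1.2, h2.1, h2.2]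
      exact_mod_cast this
  · intro i q hq
    have h1 : hh P q ≤ hh P 0 := pot_anti (fun _ => by norm_num) (Nat.zero_le q)
    have h2 : 0 ≤ hh P 0 / om ^ 2 * ((HH P 0 - i - HH P q) ^ 2 + UU P q) :=
      mul_nonneg hA (add_nonneg (sq_nonneg _) (UU_nonneg q))
    unfold Phi
    linarith
  · intro i
    have h2 : 0 ≤ hh P 0 / om ^ 2 * ((HH P 0 - i - HH P P.L) ^ 2 + UU P P.L) :=
      mul_nonneg hA (add_nonneg (sq_nonneg _) (UU_nonneg _))
    have h3 : hh P P.L = 0 := pot_L _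
    unfold Phi
    linarith
  · intro i q hq _
    have hd := dg_pos (P := P) q
    have hdd : dg P q = wm P q + P.W (q + 1) + 1 := rfl
    have h1 := core_hb (hh P 0 / om ^ 2) i hq
    have h2 := H.s1 q hq
    set F := Phi P (hh P 0 / om ^ 2) with hF
    set T := F (i + 1) q - c - hh P 0 / (P.W q + 1) with hT
    have h3 : ((wm P q * (F (i + 1) (q - 1) - c) + P.W (q + 1) * (F (i + 1) (q + 1) - c) + T) /
        dg P q + P.M * ((wm P q * F i (q - 1) + P.W (q + 1) * F i (q + 1) + T) / dg P q)) /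
        (P.M + 1) = (F i q - 1 / 2) - (c + hh P 0 / (P.W q + 1)) / dg P q -
        ep P * c * ((dg P q - 1) / dg P q) := by
      have e1 : (P.M : ℝ) = 1 / ep P - 1 := by rw [← hepM]; field_simp; ring
      have e2 : F i q - 1 / 2 = (wm P q * ((1 - ep P) * F i (q - 1) + ep P * F (i + 1) (q - 1)) +
          P.W (q + 1) * ((1 - ep P) * F i (q + 1) + ep P * F (i + 1) (q + 1)) +
          F (i + 1) q) / dg P q := by
        rw [h1]; field_simp
      rw [e2, e1, hT, hdd]
      field_simp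
      ring
    rw [h3]
    have h4 : ep P * c * ((dg P q - 1) / dg P q) ≤ ep P * c := by
      have : (dg P q - 1) / dg P q ≤ 1 := by rw [div_le_one hd]; linarith
      exact mul_le_of_le_one_right (by positivity) this
    linarith
  · intro i q hq hpos
    have hd := dg_pos (P := P) q
    have hdd : dg P q = wm P q + P.W (q + 1) + 1 := rfl
    have h1 := core_th (hh P 0 / om ^ 2) i hq
    have h2 := H.s1 q hq
    have hx := x_lt H (i := i) (q := q) (by linarith)
    set F := Phi P (hh P 0 / om ^ 2) with hF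
    have h3 : (wm P q * F i (q - 1) + P.W (q + 1) * F i (q + 1) +
        (F (i + 1) q - c - hh P 0 / (P.W q + 1))) / dg P q =
        F i q - 1 / 2 - (c + hh P 0 / (P.W q + 1)) / dg P q +
        (- 2 * (hh P 0 / om ^ 2) * ep P * (HH P 0 - i - HH P q) * (dg P q - 1) +
        (hh P 0 / om ^ 2) * ep P * ((dg P q - 1) * (1 - 2 * ep P) - 2)) / dg P q := by
      have e2 : wm P q * F i (q - 1) + P.W (q + 1) * F i (q + 1) +
        (F (i + 1) q - c - hh P 0 / (P.W q + 1)) = (wm P q * F i (q - 1) +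
        P.W (q + 1) * F i (q + 1) + F (i + 1) q) - (c + hh P 0 / (P.W q + 1)) := by ring
      rw [e2, h1]
      field_simp
      ring
    rw [h3]
    have h4 : - c ≤ (- 2 * (hh P 0 / om ^ 2) * ep P * (HH P 0 - i - HH P q) * (dg P q - 1) +
        (hh P 0 / om ^ 2) * ep P * ((dg P q - 1) * (1 - 2 * ep P) - 2)) / dg P q := by
      rw [le_div_iff₀ hd]
      have h5 : 0 ≤ (dg P q - 1) * (1 - 2 * ep P) - 2 := by
        have := H.s3 q hq
        have := H.s3'
        nlinarith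
      have h6 : 0 ≤ (hh P 0 / om ^ 2) * ep P * ((dg P q - 1) * (1 - 2 * ep P) - 2) := by positivity
      have h7 : 2 * (hh P 0 / om ^ 2) * ep P * (HH P 0 - i - HH P q) ≤ c := by
        rw [H.c_def]
        have h8 : HH P 0 - i - HH P q ≤ om := (abs_lt.mp hx).2.le
        calc 2 * (hh P 0 / om ^ 2) * ep P * (HH P 0 - i - HH P q)
            ≤ 2 * (hh P 0 / om ^ 2) * ep P * om := by gcongr
          _ = 2 * ep P * hh P 0 / om := by field_simp
      have h8 : 0 ≤ dg P q - 1 := by linarith [one_le_dg (P := P) q]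
      nlinarith [mul_le_mul_of_nonneg_right h7 h8]
    have h5 : 0 ≤ ep P * c := by positivity
    linarith

/-- The main reduction. -/
theorem expected_ge_of_hyp {om tau c : ℝ} (H : Hyp P om tau c) (hW : 0 < P.W 0) (hM : 0 < P.M) :
    ENNReal.ofReal (hh P 0 - hh P 0 / om ^ 2 * UU P 0) ≤
      expectedCaptureTime (Gr P) (Vtx.lad 0 ⟨0, hM⟩ true) (Vtx.blob ⟨0, by omega⟩ ⟨0, hW⟩) := by
  have := expected_ge (good_of_hyp H) 0 ⟨0, by omega⟩ ⟨0, hW⟩ ⟨0, hM⟩ (s := true) (by simp)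
  have e : Phi P (hh P 0 / om ^ 2) 0 0 = hh P 0 - hh P 0 / om ^ 2 * UU P 0 := by
    unfold Phi; simp
  simp only [e] at this
  convert this using 2
  simp

end Pool.Agent.H68.GC
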