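import Mathlib

/-! Cyclic distance on `ZMod N`. -/

namespace Pool.Agent.H68.GC

variable {N : ℕ} [NeZero N]

/-- cyclic distance to `0` -/
def cyc (x : ZMod N) : ℤ := |x.valMinAbs|

theorem cyc_nonneg (x : ZMod N) : 0 ≤ cyc x := abs_nonneg _

theorem cyc_intCast_eq (z : ℤ) (h : 2 * |z| ≤ N) : cyc (z : ZMod N) = |z| := by
  unfold cyc
  rcases (abs_le.mp (show |2 * z| ≤ (N : ℤ) by rw [abs_mul]; simpa using h)) with ⟨h1, h2⟩
  rcases h1.eq_or_lt with h3 | h3
  · -- 2 z = -N : valMinAbs is -z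
    have : (z : ZMod N) = ((-z : ℤ) : ZMod N) := by
      rw [ZMod.intCast_eq_intCast_iff_dvd_sub]
      exact ⟨1, by linarith⟩
    rw [this, (ZMod.valMinAbs_spec _ (-z)).2 ⟨rfl, ?_⟩, abs_neg]
    constructor <;> [skip; skip]
    · have : (0:ℤ) < N := by exact_mod_cast Nat.pos_of_ne_zero (NeZero.ne N)
      linarith
    · linarith
  · rw [(ZMod.valMinAbs_spec _ z).2 ⟨rfl, ?_⟩]
    constructor <;> linarith

theorem cyc_intCast_le (z : ℤ) : cyc (z : ZMod N) ≤ |z| := by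
  unfold cyc
  by_cases h : 2 * |z| ≤ N
  · exact (cyc_intCast_eq z h).le
  · push Not at h
    have h1 := ZMod.natAbs_valMinAbs_le (z : ZMod N)
    have h2 : |((z : ZMod N).valMinAbs)| = ((z : ZMod N).valMinAbs.natAbs : ℤ) := by
      exact Int.abs_eq_natAbs _
    rw [h2]
    have h3 : (((z : ZMod N).valMinAbs.natAbs : ℕ) : ℤ) ≤ ((N / 2 : ℕ) : ℤ) := by exact_mod_cast h1
    omega

theorem cyc_add_le (x y : ZMod N) : cyc (x + y) ≤ cyc x + cyc y := by
  have h := ZMod.natAbs_valMinAbs_add_le x y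
  unfold cyc
  have h2 : |(x + y).valMinAbs| = ((x + y).valMinAbs.natAbs : ℤ) := Int.abs_eq_natAbs _
  have h3 : |x.valMinAbs + y.valMinAbs| = ((x.valMinAbs + y.valMinAbs).natAbs : ℤ) :=
    Int.abs_eq_natAbs _
  calc |(x + y).valMinAbs| ≤ |x.valMinAbs + y.valMinAbs| := by
        rw [h2, h3]; exact_mod_cast h
    _ ≤ _ := abs_add_le _ _

theorem cyc_neg (x : ZMod N) : cyc (-x) = cyc x := by
  unfold cyc
  rw [Int.abs_eq_natAbs, Int.abs_eq_natAbs, ZMod.natAbs_valMinAbs_neg]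

theorem cyc_one_le : cyc (1 : ZMod N) ≤ 1 := by
  have := cyc_intCast_le (N := N) 1
  simpa using this

theorem cyc_succ_le (x : ZMod N) : |cyc (x + 1) - cyc x| ≤ 1 := by
  have h1 := cyc_add_le x 1
  have h2 := cyc_add_le (x + 1) (-1)
  have h3 := cyc_one_le (N := N)
  rw [cyc_neg, add_neg_cancel_right] at h2
  rw [abs_le]; constructor <;> linarith

end Pool.Agent.H68.GC
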