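import Mathlib

/-!
Greedy cop with random tie-breaking against a drunk robber: definitions.
-/

open scoped ENNReal

namespace Pool.Agent.H68.GC

variable {V : Type*} [Fintype V]

open Classical in
/-- The vertices of the closed neighbourhood `N[c]` that minimise the distance to `r`. -/
noncomputable def greedySet (G : SimpleGraph V) (c r : V) : Finset V :=
  Finset.univ.filter fun v =>
    (v = c ∨ G.Adj c v) ∧ ∀ u, (u = c ∨ G.Adj c u) → G.dist v r ≤ G.dist u r

open Classical in
theorem greedySet_nonempty (G : SimpleGraph V) (c r : V) : (greedySet G c r).Nonempty := by
  obtain ⟨v, hv, hmin⟩ := Finset.exists_min_image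
    (Finset.univ.filter fun v => v = c ∨ G.Adj c v) (fun v => G.dist v r) ⟨c, by simp⟩
  refine ⟨v, ?_⟩
  simp only [Finset.mem_filter, Finset.mem_univ, true_and] at hv hmin
  simp only [greedySet, Finset.mem_filter, Finset.mem_univ, true_and]
  exact ⟨hv, fun u hu => hmin u hu⟩

open Classical in
/-- The neighbours of `r`. -/
noncomputable def nbrs (G : SimpleGraph V) (r : V) : Finset V :=
  Finset.univ.filter fun v => G.Adj r v

/-- The cop's move: a uniformly random element of `greedySet G c r`. -/
noncomputable def copMove (G : SimpleGraph V) (c r : V) : PMF V :=
  PMF.uniformOfFinset (greedySet G c r) (greedySet_nonempty G c r)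

open Classical in
/-- The robber's move: a uniformly random neighbour of `r` (he stays if he has no neighbour). -/
noncomputable def robberMove (G : SimpleGraph V) (r : V) : PMF V :=
  if h : (nbrs G r).Nonempty then PMF.uniformOfFinset (nbrs G r) h else PMF.pure r

open Classical in
/-- One round of the game, the cop moving first. The state is `some (c, r)` as long as the robber
has not been captured and `none` afterwards. -/
noncomputable def playRound (G : SimpleGraph V) : Option (V × V) → PMF (Option (V × V))
  | none => PMF.pure none
  | some (c, r) => (copMove G c r).bind fun c' =>
      if c' = r then PMF.pure none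
      else (robberMove G r).bind fun r' =>
        if r' = c' then PMF.pure none else PMF.pure (some (c', r'))

open Classical in
/-- The distribution of the state after `t` rounds, cop and robber starting at `c` and `r`. -/
noncomputable def law (G : SimpleGraph V) (c r : V) : ℕ → PMF (Option (V × V))
  | 0 => PMF.pure (if c = r then none else some (c, r))
  | t + 1 => (law G c r t).bind (playRound G)

/-- The expected capture time: the sum over `t ≥ 0` of the probability that the robber has not
been captured during the first `t` rounds, i.e. `E[T] = ∑ P(T > t)` where `T` is the number of
rounds until capture. -/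
noncomputable def expectedCaptureTime (G : SimpleGraph V) (c r : V) : ℝ≥0∞ :=
  ∑' t : ℕ, (1 - law G c r t none)

end Pool.Agent.H68.GC
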