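import Pool.Agent.H68.GC.Graph

/-!
Connectivity and distances.
-/

namespace Pool.Agent.H68.GC

open Vtx

variable {P : Par}

theorem adj_rung (p : ZMod P.N) (j j' : Fin P.M) {s s' : Bool} (h : s' ≠ s) :
    (Gr P).Adj (lad p j s) (lad p j' s') := by
  rcases s with _ | _ <;> rcases s' with _ | _
  · exact absurd rfl h
  · left; right; exact ⟨rfl, rfl, rfl⟩
  · right; right; exact ⟨rfl, rfl, rfl⟩
  · exact absurd rfl h

theorem adj_fwd (p : ZMod P.N) (j : Fin P.M) (s : Bool) :
    (Gr P).Adj (lad p j s) (lad (p + 1) j s) := by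
  left; left; exact ⟨rfl, rfl, rfl⟩

theorem adj_base (q : Fin (P.L + 1)) (j : Fin P.M) (k : Fin (P.len q)) (hk : (k : ℕ) = 0) :
    (Gr P).Adj (lad ((P.b q : ℕ) : ZMod P.N) j (Nat.bodd q)) (st q k) := by
  left; exact ⟨hk, rfl, rfl⟩

theorem adj_stick (q : Fin (P.L + 1)) (k k' : Fin (P.len q)) (hk : (k' : ℕ) = k + 1) :
    (Gr P).Adj (st q k) (st q k') := by
  left; exact ⟨rfl, hk⟩

theorem adj_top (q : Fin (P.L + 1)) (k : Fin (P.len q)) (x : Fin (P.W q))
    (hk : (k : ℕ) + 1 = P.len q) : (Gr P).Adj (st q k) (blob q x) := by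
  left; exact ⟨rfl, hk⟩

theorem reach_lad (p : ZMod P.N) (j j0 : Fin P.M) (s : Bool) :
    (Gr P).Reachable (lad p j s) (lad p j0 false) := by
  rcases s with _ | _
  · exact (adj_rung p j j (s := false) (s' := true) (by simp)).reachable.trans
      (adj_rung p j j0 (s := true) (s' := false) (by simp)).reachable
  · exact (adj_rung p j j0 (s := true) (s' := false) (by simp)).reachable

theorem reach_zero (p : ZMod P.N) (j : Fin P.M) (s : Bool) :
    (Gr P).Reachable (lad p j s) (lad 0 j s) := by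
  have h : ∀ n : ℕ, (Gr P).Reachable (lad (n : ZMod P.N) j s) (lad 0 j s) := by
    intro n
    induction n with
    | zero => simp
    | succ n ih =>
      push_cast
      exact (adj_fwd _ _ _).symm.reachable.trans ih
  have := h p.val
  rwa [ZMod.natCast_zmod_val] at this

theorem reach_st (q : Fin (P.L + 1)) (k : Fin (P.len q)) (j : Fin P.M) :
    (Gr P).Reachable (st q k) (lad ((P.b q : ℕ) : ZMod P.N) j (Nat.bodd q)) := by
  obtain ⟨k, hk⟩ := k
  induction k with
  | zero => exact (adj_base q j ⟨0, hk⟩ rfl).symm.reachable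
  | succ k ih =>
    exact (adj_stick q ⟨k, by omega⟩ ⟨k + 1, hk⟩ rfl).symm.reachable.trans (ih (by omega))

theorem connected (P : Par) : (Gr P).Connected := by
  have hj : 0 < P.M := P.hM
  set v0 : Vtx P := lad 0 ⟨0, hj⟩ false
  have h1 : ∀ p j s, (Gr P).Reachable (lad p j s) v0 := fun p j s =>
    (reach_zero p j s).trans (reach_lad 0 j ⟨0, hj⟩ s)
  have h2 : ∀ q k, (Gr P).Reachable (st q k) v0 := fun q k =>
    (reach_st q k ⟨0, hj⟩).trans (h1 _ _ _)
  have h3 : ∀ v, (Gr P).Reachable v v0 := by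
    rintro (⟨p, j, s⟩ | ⟨q, x⟩ | ⟨q, k⟩)
    · exact h1 p j s
    · have hl := P.len_ge (Nat.lt_succ_iff.mp q.2)
      exact (adj_top q ⟨P.len q - 1, by omega⟩ x (by simp only; omega)).symm.reachable.trans
        (h2 _ _)
    · exact h2 q k
  have : Nonempty (Vtx P) := ⟨v0⟩
  exact ⟨fun v w => (h3 v).trans (h3 w).symm⟩

theorem lip_le_dist (f : Vtx P → ℤ) (hf : ∀ v w, (Gr P).Adj v w → |f v - f w| ≤ 1)
    (v w : Vtx P) : f v - f w ≤ (Gr P).dist v w := by
  obtain ⟨p, hp⟩ := (connected P).exists_walk_length_eq_dist v w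
  rw [← hp]
  clear hp
  induction p with
  | nil => simp
  | cons h p ih =>
    have := hf _ _ h
    rw [abs_le] at this
    rw [SimpleGraph.Walk.length_cons]
    push_cast
    linarith [this.2]

theorem dist_step {v w : Vtx P} (r : Vtx P) (h : (Gr P).Adj v w) :
    (Gr P).dist v r ≤ (Gr P).dist w r + 1 := by
  have h1 := (connected P).dist_triangle (u := v) (v := w) (w := r)
  have h2 : (Gr P).dist v w = 1 := SimpleGraph.dist_eq_one_iff_adj.mpr h
  omega

/-- `r` is a vertex of the `q`-th blob (`t = 0`) or the top vertex of its stick (`t = 1`); this is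
all we need to know about it. -/
structure IsTarget (q : Fin (P.L + 1)) (t : ℕ) (r : Vtx P) : Prop where
  lower : ∀ v, rho (q : ℕ) v - t ≤ (Gr P).dist v r
  upper : ∀ k : Fin (P.len q), (k : ℕ) = 0 → (Gr P).dist (st q k) r + t ≤ P.len q

theorem isTarget_blob (q : Fin (P.L + 1)) (x : Fin (P.W q)) : IsTarget q 0 (blob q x) := by
  have hq : (q : ℕ) ≤ P.L := Nat.lt_succ_iff.mp q.2
  refine ⟨fun v => ?_, fun k hk => ?_⟩
  · have := lip_le_dist (rho (q : ℕ)) (fun v w h => adj_lip hq h) v (blob q x)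
    simpa [rho] using this
  · have h : ∀ n : ℕ, ∀ k : Fin (P.len q), (k : ℕ) + n + 1 = P.len q →
        (Gr P).dist (st q k) (blob q x) ≤ n + 1 := by
      intro n
      induction n with
      | zero =>
        intro k hk
        have := adj_top q k x (by omega)
        rw [← SimpleGraph.dist_eq_one_iff_adj] at this
        omega
      | succ n ih =>
        intro k hk
        have h1 := ih ⟨k + 1, by omega⟩ (by simp only; omega)
        have h2 := dist_step (blob q x) (adj_stick q k ⟨k + 1, by omega⟩ rfl)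
        omega
    have hl := P.len_ge hq
    have := h (P.len q - 1) k (by omega)
    omega

theorem isTarget_top (q : Fin (P.L + 1)) (e : Fin (P.len q)) (he : (e : ℕ) + 1 = P.len q) :
    IsTarget q 1 (st q e) := by
  have hq : (q : ℕ) ≤ P.L := Nat.lt_succ_iff.mp q.2
  have hW : 0 < P.W q := P.hW q
  refine ⟨fun v => ?_, fun k hk => ?_⟩
  · have h1 := (isTarget_blob q ⟨0, hW⟩).lower v
    have h2 := (connected P).dist_triangle (u := v) (v := st q e) (w := blob q ⟨0, hW⟩)
    have h3 : (Gr P).dist (st q e) (blob q ⟨0, hW⟩) = 1 :=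
      SimpleGraph.dist_eq_one_iff_adj.mpr (adj_top q e _ he)
    push_cast at *
    have h4 : ((Gr P).dist v (blob q ⟨0, hW⟩) : ℤ) ≤ (Gr P).dist v (st q e) + 1 := by
      exact_mod_cast (by omega)
    linarith
  · have h : ∀ n : ℕ, ∀ k : Fin (P.len q), (k : ℕ) + n + 1 = P.len q →
        (Gr P).dist (st q k) (st q e) ≤ n := by
      intro n
      induction n with
      | zero =>
        intro k hk
        have : k = e := Fin.ext (by omega)
        subst this
        simp
      | succ n ih =>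
        intro k hk
        have h1 := ih ⟨k + 1, by omega⟩ (by simp only; omega)
        have h2 := dist_step (st q e) (adj_stick q k ⟨k + 1, by omega⟩ rfl)
        omega
    have hl := P.len_ge hq
    have := h (P.len q - 1) k (by omega)
    omega

section Target

variable {q : Fin (P.L + 1)} {t : ℕ} {r : Vtx P}

/-- upper bound on the matching line -/
theorem dist_match_le (_ht : t ≤ 1) (hr : IsTarget q t r) (x : ℤ) (hx : x ≤ P.b q) (j : Fin P.M) :
    ((Gr P).dist (lad (x : ZMod P.N) j (Nat.bodd q)) r : ℤ) ≤ P.B - x - t := by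
  have hq : (q : ℕ) ≤ P.L := Nat.lt_succ_iff.mp q.2
  have hl := P.len_ge hq
  have hle := P.len_eq hq
  obtain ⟨n, hn⟩ : ∃ n : ℕ, (P.b q : ℤ) - x = n := ⟨((P.b q : ℤ) - x).toNat, by omega⟩
  induction n generalizing x with
  | zero =>
    have hx' : x = P.b q := by push_cast at hn; linarith
    subst hx'
    have h1 := hr.upper ⟨0, by omega⟩ rfl
    have h2 := dist_step r (adj_base q j ⟨0, by omega⟩ rfl)
    push_cast
    omega
  | succ n ih =>
    have h1 := ih (x + 1) (by push_cast at hn; omega) (by push_cast at *; omega)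
    have h2 := dist_step r (adj_fwd (x : ZMod P.N) j (Nat.bodd q))
    push_cast at h1 h2
    omega

theorem dist_mismatch_le (ht : t ≤ 1) (hr : IsTarget q t r) (x : ℤ) (hx : x ≤ P.b q)
    (j : Fin P.M) {s : Bool} (hs : s ≠ Nat.bodd q) :
    ((Gr P).dist (lad (x : ZMod P.N) j s) r : ℤ) ≤ P.B - x - t + 1 := by
  have h1 := dist_match_le ht hr x hx j
  have h2 := dist_step r (adj_rung (x : ZMod P.N) j j (Ne.symm hs))
  omega

theorem rhoL_window (x : ℤ) (hx : x ≤ P.b q + 1) (hx' : (P.b q : ℤ) + 1 - 2 * P.u ≤ x) (s : Bool) :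
    rhoL P q (x : ZMod P.N) s = P.B - x + (if s = Nat.bodd q then 0 else 1) := by
  unfold rhoL
  have h1 : (x : ZMod P.N) - ((P.b q : ℕ) + 1 : ZMod P.N) = ((x - P.b q - 1 : ℤ) : ZMod P.N) := by
    push_cast; ring
  have h2 : |x - (P.b q : ℤ) - 1| = P.b q + 1 - x := by
    rw [abs_of_nonpos (by omega)]; ring
  rw [h1, cyc_intCast_eq, h2]
  · ring
  · rw [h2]; unfold Par.N; push_cast; linarith

theorem dist_match (ht : t ≤ 1) (hr : IsTarget q t r) (x : ℤ) (hx : x ≤ P.b q)
    (hx' : (P.b q : ℤ) + 1 - 2 * P.u ≤ x) (j : Fin P.M) :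
    ((Gr P).dist (lad (x : ZMod P.N) j (Nat.bodd q)) r : ℤ) = P.B - x - t := by
  apply le_antisymm (dist_match_le ht hr x hx j)
  have h1 := hr.lower (lad (x : ZMod P.N) j (Nat.bodd q))
  simp only [rho] at h1
  rw [rhoL_window x (by omega) hx', if_pos rfl] at h1
  linarith

theorem dist_mismatch (ht : t ≤ 1) (hr : IsTarget q t r) (x : ℤ) (hx : x ≤ P.b q)
    (hx' : (P.b q : ℤ) + 1 - 2 * P.u ≤ x) (j : Fin P.M) {s : Bool} (hs : s ≠ Nat.bodd q) :
    ((Gr P).dist (lad (x : ZMod P.N) j s) r : ℤ) = P.B - x - t + 1 := by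
  apply le_antisymm (dist_mismatch_le ht hr x hx j hs)
  have h1 := hr.lower (lad (x : ZMod P.N) j s)
  simp only [rho] at h1
  rw [rhoL_window x (by omega) hx', if_neg hs] at h1
  linarith

/-- the first vertex of a stick attached at position `x` is far away -/
theorem dist_stick_ge (hr : IsTarget q t r) (x : ℤ) (hx : x + 2 ≤ P.b q)
    (hx' : (P.b q : ℤ) + 2 - 2 * P.u ≤ x) (q' : Fin (P.L + 1)) (k : Fin (P.len q'))
    (hk : (k : ℕ) = 0) (hb : (x : ZMod P.N) = ((P.b q' : ℕ) : ZMod P.N)) :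
    (P.B : ℤ) - x + 1 - t ≤ (Gr P).dist (st q' k) r := by
  have hq : (q : ℕ) ≤ P.L := Nat.lt_succ_iff.mp q.2
  have hq' : (q' : ℕ) ≤ P.L := Nat.lt_succ_iff.mp q'.2
  have h1 := hr.lower (st q' k)
  simp only [rho] at h1
  rw [← hb, rhoL_window x (by omega) (by omega), hk] at h1
  have h2 : (0 : ℤ) ≤ (if Nat.bodd q' = Nat.bodd q then (0 : ℤ) else 1) := by
    split_ifs <;> simp
  have hle := P.len_eq hq'
  -- congruence
  have hdvd : (P.N : ℤ) ∣ (P.b q' : ℤ) - x := by
    have : ((x : ℤ) : ZMod P.N) = ((P.b q' : ℤ) : ZMod P.N) := by push_cast; exact hb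
    rwa [ZMod.intCast_eq_intCast_iff_dvd_sub] at this
  obtain ⟨c, hc⟩ := hdvd
  have hN : (P.N : ℤ) = 4 * P.u := by unfold Par.N; push_cast; ring
  rw [hN] at hc
  have hu : (2 : ℤ) ≤ P.u := by exact_mod_cast P.hu
  have hbq : (P.b q : ℤ) = ((q / 4 : ℕ) : ℤ) + P.u := by unfold Par.b; push_cast; rfl
  have hbq' : (P.b q' : ℤ) = ((q' / 4 : ℕ) : ℤ) + P.u := by unfold Par.b; push_cast; rfl
  have key : (P.b q' : ℤ) - x + 2 ≤ |((q' : ℕ) : ℤ) - q| := by
    rcases lt_trichotomy c 0 with h | h | h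
    · have : 4 * (P.u : ℤ) * c ≤ - 8 := by nlinarith
      have := abs_nonneg (((q' : ℕ) : ℤ) - q)
      linarith
    · subst h
      have h3 : (P.b q' : ℤ) = x := by linarith
      rw [abs_of_nonpos (by omega)]
      omega
    · have : 4 * (P.u : ℤ) ≤ 4 * (P.u : ℤ) * c := by nlinarith
      rw [← hc] at this
      rw [abs_of_nonneg (by omega)]
      omega
  have h3 : (P.B : ℤ) - x + 1 ≤ min ((P.B : ℤ) - x + (if Nat.bodd q' = Nat.bodd q then 0 else 1) +
      (((0 : ℕ) : ℤ) + 1)) (|((q' : ℕ) : ℤ) - q| + (P.len q' - ((0 : ℕ) : ℤ))) := by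
    apply le_min
    · push_cast; linarith
    · push_cast; linarith
  linarith

end Target

end Pool.Agent.H68.GC
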