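import Pool.Agent.H68.GC.Params

/-!
The number of vertices, existence of parameters and the conclusion.
-/

namespace Pool.Agent.H68.GC

theorem card_Vtx (P : Par) : Fintype.card (Vtx P) =
    P.N * (P.M * 2) + (∑ q ∈ Finset.range (P.L + 1), P.W q +
      ∑ q ∈ Finset.range (P.L + 1), P.len q) := by
  rw [Fintype.card_congr (Vtx.equiv P)]
  simp only [Fintype.card_sum, Fintype.card_prod, Fintype.card_sigma, Fintype.card_fin,
    Fintype.card_bool]
  rw [Finset.sum_range fun q => P.W q, Finset.sum_range fun q => P.len q]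
  congr 2
  exact ZMod.card _

variable {K R Λ a u J ρ : ℕ} (h : Num K R Λ a u J ρ)

include h

theorem sum_W_le : (∑ q ∈ Finset.range ((par h).L + 1), (par h).W q : ℕ) ≤ u * ρ ^ 2 := by
  have hL := par_L h
  have key : (∑ q ∈ Finset.range ((par h).L + 1), ((par h).W q : ℝ)) ≤ u * ρ ^ 2 := by
    have hρ : (256 : ℝ) ≤ ρ := by exact_mod_cast h.ρge
    have h1 : ∀ q ∈ Finset.range ((par h).L + 1),
        ((par h).W q : ℝ) ≤ (a * Λ ^ R) * (ρ + ρ ^ 2 * bad J q) := by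
      intro q hq
      rw [Finset.mem_range, hL] at hq
      have hk : q / J ≤ R := by
        apply Nat.div_le_of_le_mul
        rw [mul_comm]; omega
      have hΛ : (1 : ℝ) ≤ Λ := by exact_mod_cast h.Λpos
      have hA : AA a Λ J q ≤ a * Λ ^ R := by
        unfold AA
        gcongr
      have hA0 := AA_pos h q
      rcases Nat.lt_or_ge (q % J) 2 with h2 | h2
      · rw [W_heavy h h2]
        have : bad J q = 1 := by unfold bad; rw [if_pos (Or.inl h2)]
        rw [this]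
        gcongr
        linarith
      · rw [W_light h h2]
        have := bad_nonneg J q
        gcongr
        have : 0 ≤ (ρ : ℝ) ^ 2 * bad J q := by positivity
        linarith
    refine (Finset.sum_le_sum h1).trans ?_
    rw [← Finset.mul_sum, Finset.sum_add_distrib, ← Finset.mul_sum, Finset.sum_const,
      Finset.card_range, nsmul_eq_mul, hL, Finset.sum_range_succ]
    have h2 := bad_sum h R
    have h3 : bad J (R * J) ≤ 1 := by unfold bad; split_ifs <;> norm_num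
    have h4 : (((R * J + 1 : ℕ) : ℝ)) ≤ ρ := by
      have := h.hρ2
      have h5 : (R * J + 1) * 1 ≤ (R * J + 1) * (2 * (R * J) + u + 3) := by gcongr; omega
      exact_mod_cast (by omega : R * J + 1 ≤ ρ)
    have h5 : ((3 * R + 2 : ℕ) : ℝ) * (a * Λ ^ R) ≤ u := by exact_mod_cast h.hu
    push_cast at h4 h5 ⊢
    calc (a : ℝ) * Λ ^ R * (((R : ℝ) * J + 1) * ρ +
          ρ ^ 2 * (∑ x ∈ Finset.range (R * J), bad J x + bad J (R * J)))
        ≤ (a : ℝ) * (Λ : ℝ) ^ R * ((ρ : ℝ) * ρ + (ρ : ℝ) ^ 2 * (3 * R + 1)) := by gcongr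
      _ = ((3 * (R : ℝ) + 2) * ((a : ℝ) * (Λ : ℝ) ^ R)) * (ρ : ℝ) ^ 2 := by ring
      _ ≤ (u : ℝ) * (ρ : ℝ) ^ 2 := by gcongr
  exact_mod_cast key

theorem sum_len_le : (∑ q ∈ Finset.range ((par h).L + 1), (par h).len q : ℕ) ≤ u * ρ ^ 2 := by
  have hL := par_L h
  have h1 : ∀ q ∈ Finset.range ((par h).L + 1), (par h).len q ≤ 2 * (R * J) + u + 3 := by
    intro q _
    unfold Par.len Par.B Par.b
    have : (par h).u = u := rfl
    rw [hL, this]
    omega
  have hu : 48 ≤ u := by exact_mod_cast upos h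
  calc (∑ q ∈ Finset.range ((par h).L + 1), (par h).len q : ℕ)
      ≤ ∑ q ∈ Finset.range ((par h).L + 1), (2 * (R * J) + u + 3) := Finset.sum_le_sum h1
    _ = (R * J + 1) * (2 * (R * J) + u + 3) := by
      rw [Finset.sum_const, Finset.card_range, smul_eq_mul, hL]
    _ ≤ ρ := h.hρ2
    _ ≤ ρ ^ 2 := by rw [pow_two]; exact Nat.le_mul_self ρ
    _ ≤ u * ρ ^ 2 := Nat.le_mul_of_pos_left _ (by omega)

theorem card_le : Fintype.card (Vtx (par h)) ≤ 130 * (u * ρ ^ 2) := by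
  rw [card_Vtx]
  have h1 := sum_W_le h
  have h2 := sum_len_le h
  have h3 : (par h).N * ((par h).M * 2) = 128 * (u * ρ ^ 2) := by
    change (4 * u) * ((16 * ρ ^ 2) * 2) = _
    ring
  omega

theorem card_ge : ρ ≤ Fintype.card (Vtx (par h)) := by
  rw [card_Vtx]
  have h3 : (par h).N * ((par h).M * 2) = 128 * (u * ρ ^ 2) := by
    change (4 * u) * ((16 * ρ ^ 2) * 2) = _
    ring
  have hu : 48 ≤ u := by exact_mod_cast upos h
  have h4 : ρ ≤ ρ ^ 2 := by rw [pow_two]; exact Nat.le_mul_self ρ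
  have h5 : ρ ^ 2 ≤ u * ρ ^ 2 := Nat.le_mul_of_pos_left _ (by omega)
  omega

omit h in
theorem exists_num (K : ℕ) (hK : 1 ≤ K) (n₀ : ℕ) :
    ∃ R Λ a u J ρ : ℕ, Num K R Λ a u J ρ ∧ n₀ ≤ ρ := by
  obtain ⟨R, hR⟩ : ∃ R, R = 8192 * K ^ 2 := ⟨_, rfl⟩
  obtain ⟨Λ, hΛ⟩ : ∃ Λ, Λ = 1024 * K := ⟨_, rfl⟩
  obtain ⟨G, hG⟩ : ∃ G, G = (3 * R + 2) * Λ ^ R := ⟨_, rfl⟩
  obtain ⟨a, ha⟩ : ∃ a, a = 8704 * K * (R * G) := ⟨_, rfl⟩
  obtain ⟨u, hu⟩ : ∃ u, u = R * G * a := ⟨_, rfl⟩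
  obtain ⟨J, hJ⟩ : ∃ J, J = 16 * K * G * a := ⟨_, rfl⟩
  have hR1 : 1 ≤ R := by rw [hR]; nlinarith
  have hΛ1 : 1 ≤ Λ := by rw [hΛ]; omega
  have hG1 : 1 ≤ G := by
    rw [hG]
    exact Nat.mul_pos (by omega) (Nat.pow_pos hΛ1)
  have hRG : 1 ≤ R * G := Nat.mul_pos hR1 hG1
  have ha1 : 8704 * K ≤ a := by rw [ha]; exact Nat.le_mul_of_pos_right _ hRG
  have hGa : a ≤ G * a := Nat.le_mul_of_pos_left _ hG1
  refine ⟨R, Λ, a, u, J, 256 * K * J * (Λ + 18) + (R * J + 1) * (2 * (R * J) + u + 3) + n₀,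
    ⟨hK, hR.ge, hΛ.ge, ?_, ?_, ha1, ?_, ?_, ?_, by omega, by omega⟩, by omega⟩
  · rw [hu, hJ]; ring
  · have h1 : 8 * (R * J) = (128 * K * (R * G)) * a := by rw [hJ]; ring
    rw [h1, pow_two]
    gcongr
    rw [ha]
    gcongr
    omega
  · have h1 : (3 * R + 2) * (a * Λ ^ R) = 1 * (G * a) := by rw [hG]; ring
    rw [h1, hu, mul_assoc]
    gcongr
  · rw [hu, mul_assoc]
    have h2 : 48 ≤ G * a := by omega
    calc 24 * (R + 1) ≤ R * 48 := by omega
      _ ≤ R * (G * a) := by gcongr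
  · rw [hJ, mul_assoc]
    have h2 : 8 ≤ G * a := by omega
    exact h2.trans (Nat.le_mul_of_pos_left _ (by omega))

omit h in
/-- Arbitrarily large connected graphs with `E[T] > C n`. -/
theorem unbounded (C n₀ : ℕ) : ∃ (V : Type) (_ : Fintype V) (G : SimpleGraph V),
    G.Connected ∧ n₀ ≤ Fintype.card V ∧
      ∃ c r : V, (C : ENNReal) * (Fintype.card V : ENNReal) < expectedCaptureTime G c r := by
  obtain ⟨R, Λ, a, u, J, ρ, h, hn⟩ := exists_num (33 * (C + 1)) (by omega) n₀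
  refine ⟨Vtx (par h), inferInstance, Gr (par h), connected _, hn.trans (card_ge h), _, _,
    lt_of_lt_of_le ?_ (main_lower h)⟩
  have h1 := card_le h
  have h2 : 0 < u * ρ ^ 2 := by
    have hu : 48 ≤ u := by exact_mod_cast upos h
    have := h.ρge
    positivity
  have h3 : C * Fintype.card (Vtx (par h)) < 4 * (33 * (C + 1)) * u * ρ ^ 2 := by
    calc C * Fintype.card (Vtx (par h)) ≤ C * (130 * (u * ρ ^ 2)) := by gcongr
      _ < 4 * (33 * (C + 1)) * u * ρ ^ 2 := by nlinarith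
  exact_mod_cast h3

end Pool.Agent.H68.GC
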