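import Pool.Agent.H68.GC.Cyc
import Pool.Agent.H68.GC.Defs

/-!
The graph: a cyclic ladder (`lad`), a path of blobs (`blob`) and sticks (`st`) joining each blob to
the ladder.
-/

namespace Pool.Agent.H68.GC

/-- Parameters of the construction. -/
structure Par where
  u : ℕ
  K : ℕ
  M : ℕ
  W : ℕ → ℕ
  hu : 2 ≤ u
  hM : 0 < M
  hW : ∀ q, 0 < W q

namespace Par

variable (P : Par)

/-- length of the cyclic ladder -/
def N : ℕ := 4 * P.u
/-- index of the last blob -/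
def L : ℕ := 16 * P.K * P.u
/-- position at which the stick of the `q`-th blob is attached -/
def b (q : ℕ) : ℕ := q / 4 + P.u
/-- the constant `b q + (length of the stick)` -/
def B : ℕ := P.b P.L + P.L + 3
/-- number of vertices of the stick of the `q`-th blob -/
def len (q : ℕ) : ℕ := P.B - P.b q - 1

instance : NeZero P.N := ⟨by have := P.hu; unfold N; omega⟩

theorem b_le {q : ℕ} (hq : q ≤ P.L) : P.b q ≤ P.b P.L := by
  unfold b; gcongr

theorem len_eq {q : ℕ} (hq : q ≤ P.L) : (P.len q : ℤ) = P.B - P.b q - 1 := by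
  have := P.b_le hq
  unfold len B; push_cast [B]; omega

theorem len_ge {q : ℕ} (hq : q ≤ P.L) : P.L + 2 ≤ P.len q := by
  have := P.b_le hq
  unfold len B; omega

end Par

/-- Vertices. -/
inductive Vtx (P : Par)
  | lad (p : ZMod P.N) (j : Fin P.M) (s : Bool)
  | blob (q : Fin (P.L + 1)) (x : Fin (P.W q))
  | st (q : Fin (P.L + 1)) (j : Fin (P.len q))

open Vtx

variable {P : Par}

/-- equivalence with a sum type -/
def Vtx.equiv (P : Par) : Vtx P ≃ (ZMod P.N × Fin P.M × Bool) ⊕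
    ((Σ q : Fin (P.L + 1), Fin (P.W q)) ⊕ (Σ q : Fin (P.L + 1), Fin (P.len q))) where
  toFun
    | lad p j s => Sum.inl (p, j, s)
    | blob q x => Sum.inr (Sum.inl ⟨q, x⟩)
    | st q j => Sum.inr (Sum.inr ⟨q, j⟩)
  invFun
    | Sum.inl (p, j, s) => lad p j s
    | Sum.inr (Sum.inl ⟨q, x⟩) => blob q x
    | Sum.inr (Sum.inr ⟨q, j⟩) => st q j
  left_inv := by rintro (_ | _ | _) <;> rfl
  right_inv := by rintro (⟨_, _, _⟩ | ⟨_, _⟩ | ⟨_, _⟩) <;> rfl

instance : Fintype (ZMod P.N) := ZMod.fintype _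

instance : Fintype (Vtx P) := Fintype.ofEquiv _ (Vtx.equiv P).symm

/-- One direction of the adjacency relation. -/
def rel : Vtx P → Vtx P → Prop
  | lad p j s, lad p' j' s' => (p' = p + 1 ∧ j' = j ∧ s' = s) ∨ (p' = p ∧ s = false ∧ s' = true)
  | lad p _ s, st q k => (k : ℕ) = 0 ∧ p = ((P.b q : ℕ) : ZMod P.N) ∧ s = Nat.bodd q
  | st q k, st q' k' => q = q' ∧ (k' : ℕ) = k + 1
  | st q k, blob q' _ => q = q' ∧ (k : ℕ) + 1 = P.len q
  | blob q _, blob q' _ => (q' : ℕ) = q + 1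
  | _, _ => False

theorem one_ne_zero' (P : Par) : (1 : ZMod P.N) ≠ 0 := by
  have h : 1 < P.N := by have := P.hu; unfold Par.N; omega
  have : Fact (1 < P.N) := ⟨h⟩
  exact one_ne_zero

theorem not_rel_self (v : Vtx P) : ¬ rel v v := by
  rcases v with ⟨p, j, s⟩ | ⟨q, x⟩ | ⟨q, k⟩
  · rintro (⟨h, -⟩ | ⟨-, h1, h2⟩)
    · have := one_ne_zero' P
      exact this (by simpa using h)
    · simp [h1] at h2
  · intro h; simp [rel] at h
  · rintro ⟨-, h⟩; omega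

/-- The graph. -/
def Gr (P : Par) : SimpleGraph (Vtx P) where
  Adj v w := rel v w ∨ rel w v
  symm := ⟨fun _ _ h => h.symm⟩
  loopless := ⟨fun v h => by rcases h with h | h <;> exact not_rel_self v h⟩

/-- potential on the ladder for a robber at the `q`-th blob -/
def rhoL (P : Par) (q : ℕ) (p : ZMod P.N) (s : Bool) : ℤ :=
  (P.B : ℤ) - P.b q - 1 + cyc (p - ((P.b q : ℕ) + 1 : ZMod P.N)) + (if s = Nat.bodd q then 0 else 1)

/-- a `1`-Lipschitz function vanishing on the `q`-th blob -/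
def rho (q : ℕ) : Vtx P → ℤ
  | lad p _ s => rhoL P q p s
  | blob q' _ => |((q' : ℕ) : ℤ) - q|
  | st q' k => min (rhoL P q ((P.b q' : ℕ) : ZMod P.N) (Nat.bodd q') + (k + 1))
      (|((q' : ℕ) : ℤ) - q| + (P.len q' - k))

theorem rhoL_key {q q' : ℕ} (hq : q ≤ P.L) (hq' : q' ≤ P.L) :
    rhoL P q ((P.b q' : ℕ) : ZMod P.N) (Nat.bodd q') ≤ |(q' : ℤ) - q| + (P.len q' + 1) ∧
    |(q' : ℤ) - q| ≤ rhoL P q ((P.b q' : ℕ) : ZMod P.N) (Nat.bodd q') + (P.len q' + 1) := by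
  have h1 : cyc (((P.b q' : ℕ) : ZMod P.N) - ((P.b q : ℕ) + 1 : ZMod P.N)) ≤
      |(P.b q' : ℤ) - P.b q - 1| := by
    have := cyc_intCast_le (N := P.N) ((P.b q' : ℤ) - P.b q - 1)
    refine le_trans (le_of_eq ?_) this
    congr 1
    push_cast; ring
  have h2 := cyc_nonneg (((P.b q' : ℕ) : ZMod P.N) - ((P.b q : ℕ) + 1 : ZMod P.N))
  have h3 := P.len_eq hq'
  have h4 := P.len_ge hq'
  have h5 := P.b_le hq
  have h6 : (if Nat.bodd q' = Nat.bodd q then (0 : ℤ) else 1) ≤ |(q' : ℤ) - q| := by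
    split_ifs with h
    · exact abs_nonneg _
    · have : q' ≠ q := fun h' => h (by rw [h'])
      have : (q' : ℤ) - q ≠ 0 := by omega
      exact Int.one_le_abs this
  have h6' : (0 : ℤ) ≤ (if Nat.bodd q' = Nat.bodd q then (0 : ℤ) else 1) ∧
      (if Nat.bodd q' = Nat.bodd q then (0 : ℤ) else 1) ≤ 1 := by
    split_ifs <;> simp
  have hB : (P.B : ℤ) = P.b P.L + P.L + 3 := by unfold Par.B; push_cast; rfl
  unfold rhoL
  generalize hc : cyc (((P.b q' : ℕ) : ZMod P.N) - ((P.b q : ℕ) + 1 : ZMod P.N)) = cc at *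
  generalize hi : (if Nat.bodd q' = Nat.bodd q then (0 : ℤ) else 1) = ii at *
  have hbq : (P.b q : ℤ) = ((q / 4 : ℕ) : ℤ) + P.u := by unfold Par.b; push_cast; rfl
  have hbq' : (P.b q' : ℤ) = ((q' / 4 : ℕ) : ℤ) + P.u := by unfold Par.b; push_cast; rfl
  have h7 : P.b q' ≤ P.b P.L := P.b_le hq'
  rcases abs_cases ((q' : ℤ) - q) with ⟨ha, ha'⟩ | ⟨ha, ha'⟩ <;>
  rcases abs_cases ((P.b q' : ℤ) - P.b q - 1) with ⟨hb, hb'⟩ | ⟨hb, hb'⟩ <;>
  constructor <;> omega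

theorem rel_lip {q : ℕ} (hq : q ≤ P.L) {v w : Vtx P} (h : rel v w) :
    |rho q v - rho q w| ≤ 1 := by
  rcases v with ⟨p, j, s⟩ | ⟨q1, x⟩ | ⟨q1, k⟩ <;> rcases w with ⟨p', j', s'⟩ | ⟨q2, y⟩ | ⟨q2, k'⟩
  · rcases h with ⟨h1, h2, h3⟩ | ⟨h1, h2, h3⟩
    · subst h1 h3
      simp only [rho, rhoL]
      have := cyc_succ_le (p - ((P.b q : ℕ) + 1 : ZMod P.N))
      have h4 : p + 1 - ((P.b q : ℕ) + 1 : ZMod P.N) = p - ((P.b q : ℕ) + 1 : ZMod P.N) + 1 := by
        ring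
      rw [h4, abs_sub_comm]
      convert this using 2
      ring
    · subst h1 h2 h3
      simp only [rho, rhoL]
      rcases Nat.bodd q with _ | _ <;> simp
  · exact h.elim
  · obtain ⟨h1, h2, h3⟩ := h
    have hk := rhoL_key hq (Nat.lt_succ_iff.mp q2.2)
    subst h2 h3
    simp only [rho, h1]
    generalize rhoL P q ((P.b q2 : ℕ) : ZMod P.N) (Nat.bodd q2) = R at *
    generalize |((q2 : ℕ) : ℤ) - q| = A at *
    rcases min_cases (R + ((0:ℕ) + 1)) (A + (P.len q2 - (0:ℕ))) with ⟨h, h'⟩ | ⟨h, h'⟩ <;>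
      rw [h, abs_le] <;> constructor <;> push_cast at * <;> omega
  · exact h.elim
  · simp only [rel] at h
    simp only [rho]
    rw [h]
    rcases abs_cases (((q1 : ℕ) : ℤ) - q) with ⟨h1, h1'⟩ | ⟨h1, h1'⟩ <;>
    rcases abs_cases ((((q1 : ℕ) + 1 : ℕ) : ℤ) - q) with ⟨h2, h2'⟩ | ⟨h2, h2'⟩ <;>
      rw [h1, h2, abs_le] <;> constructor <;> push_cast at * <;> omega
  · exact h.elim
  · exact h.elim
  · obtain ⟨rfl, h1⟩ := h
    have hk := rhoL_key hq (Nat.lt_succ_iff.mp q1.2)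
    simp only [rho]
    generalize rhoL P q ((P.b q1 : ℕ) : ZMod P.N) (Nat.bodd q1) = R at *
    generalize |((q1 : ℕ) : ℤ) - q| = A at *
    rcases min_cases (R + ((k:ℕ) + 1)) (A + (P.len q1 - (k:ℕ))) with ⟨h, h'⟩ | ⟨h, h'⟩ <;>
      rw [h, abs_le] <;> constructor <;> omega
  · obtain ⟨rfl, h1⟩ := h
    simp only [rho]
    generalize rhoL P q ((P.b q1 : ℕ) : ZMod P.N) (Nat.bodd q1) = R at *
    generalize |((q1 : ℕ) : ℤ) - q| = A at *
    rcases min_cases (R + ((k:ℕ) + 1)) (A + (P.len q1 - (k:ℕ))) with ⟨h, h'⟩ | ⟨h, h'⟩ <;>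
    rcases min_cases (R + ((k':ℕ) + 1)) (A + (P.len q1 - (k':ℕ))) with ⟨g, g'⟩ | ⟨g, g'⟩ <;>
      rw [h, g, abs_le] <;> constructor <;> push_cast [h1] at * <;> omega

theorem adj_lip {q : ℕ} (hq : q ≤ P.L) {v w : Vtx P} (h : (Gr P).Adj v w) :
    |rho q v - rho q w| ≤ 1 := by
  rcases h with h | h
  · exact rel_lip hq h
  · rw [abs_sub_comm]; exact rel_lip hq h

end Pool.Agent.H68.GC
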