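import Pool.Agent.H68.GC.Dist

/-!
The greedy options of the cop.
-/

namespace Pool.Agent.H68.GC

open Vtx

variable {P : Par}

theorem greedySet_eq_of {V : Type*} [Fintype V] (G : SimpleGraph V) (c r : V) (S : Finset V)
    (d : ℕ) (hne : S.Nonempty) (hS : ∀ v ∈ S, (v = c ∨ G.Adj c v) ∧ G.dist v r = d)
    (hout : ∀ v, (v = c ∨ G.Adj c v) → v ∉ S → d < G.dist v r) : greedySet G c r = S := by
  ext v
  simp only [greedySet, Finset.mem_filter, Finset.mem_univ, true_and]
  constructor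
  · rintro ⟨hv, hmin⟩
    by_contra hvS
    obtain ⟨w, hw⟩ := hne
    have h1 := hout v hv hvS
    have h2 := hmin w (hS w hw).1
    rw [(hS w hw).2] at h2
    omega
  · intro hv
    refine ⟨(hS v hv).1, fun u hu => ?_⟩
    rw [(hS v hv).2]
    by_cases huS : u ∈ S
    · exact (hS u huS).2.ge
    · exact (hout u hu huS).le

theorem adj_lad_cases {p : ZMod P.N} {j : Fin P.M} {s : Bool} {v : Vtx P}
    (h : (Gr P).Adj (lad p j s) v) :
    (∃ j' s', s' ≠ s ∧ v = lad p j' s') ∨ v = lad (p + 1) j s ∨ v = lad (p - 1) j s ∨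
    ∃ (q' : Fin (P.L + 1)) (k : Fin (P.len q')), (k : ℕ) = 0 ∧ p = ((P.b q' : ℕ) : ZMod P.N) ∧
      s = Nat.bodd q' ∧ v = st q' k := by
  rcases v with ⟨p', j', s'⟩ | ⟨q1, x⟩ | ⟨q1, k⟩
  · rcases h with (⟨rfl, rfl, rfl⟩ | ⟨rfl, rfl, rfl⟩) | (⟨rfl, rfl, rfl⟩ | ⟨rfl, rfl, rfl⟩)
    · exact Or.inr (Or.inl rfl)
    · exact Or.inl ⟨j', true, by simp, rfl⟩
    · exact Or.inr (Or.inr (Or.inl (by rw [add_sub_cancel_right])))
    · exact Or.inl ⟨j', false, by simp, rfl⟩
  · rcases h with h | h <;> exact h.elim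
  · rcases h with ⟨h1, h2, h3⟩ | h
    · exact Or.inr (Or.inr (Or.inr ⟨q1, k, h1, h2, h3, rfl⟩))
    · exact h.elim

open Classical in
/-- options in a mismatched position -/
noncomputable def optM (P : Par) (x : ℤ) (j : Fin P.M) (s : Bool) : Finset (Vtx P) :=
  insert (lad ((x : ZMod P.N) + 1) j s)
    (Finset.univ.image fun j' : Fin P.M => (lad (x : ZMod P.N) j' (!s) : Vtx P))

open Classical in
theorem sum_optM (x : ℤ) (j : Fin P.M) (s : Bool) (g : Vtx P → ℝ) :
    ∑ v ∈ optM P x j s, g v =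
      g (lad ((x : ZMod P.N) + 1) j s) + ∑ j' : Fin P.M, g (lad (x : ZMod P.N) j' (!s)) := by
  unfold optM
  rw [Finset.sum_insert, Finset.sum_image]
  · intro a _ b _ h
    simpa using h
  · simp

theorem card_optM (x : ℤ) (j : Fin P.M) (s : Bool) : ((optM P x j s).card : ℝ) = P.M + 1 := by
  have := sum_optM (P := P) x j s (fun _ => 1)
  simp at this
  rw [this]; ring

section Target

variable {q : Fin (P.L + 1)} {t : ℕ} {r : Vtx P}

theorem greedy_mismatch (ht : t ≤ 1) (hr : IsTarget q t r) (x : ℤ) (hx : x + 2 ≤ P.b q)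
    (hx' : (P.b q : ℤ) + 2 - 2 * P.u ≤ x) (j : Fin P.M) {s : Bool} (hs : s ≠ Nat.bodd q) :
    greedySet (Gr P) (lad (x : ZMod P.N) j s) r = optM P x j s := by
  classical
  have hb : (!s) = Nat.bodd q := by
    rcases s with _ | _ <;> rcases hq : Nat.bodd q with _ | _ <;> simp_all
  have hBge : (P.b q : ℤ) + 3 ≤ P.B := by
    have h5 := P.b_le (Nat.lt_succ_iff.mp q.2)
    unfold Par.B
    omega
  obtain ⟨d, hd⟩ : ∃ d : ℕ, (d : ℤ) = P.B - x - t := ⟨(P.B - x - t).toNat, by omega⟩
  have hxc : ((x : ZMod P.N) + 1) = ((x + 1 : ℤ) : ZMod P.N) := by push_cast; rfl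
  have hxc' : ((x : ZMod P.N) - 1) = ((x - 1 : ℤ) : ZMod P.N) := by push_cast; rfl
  apply greedySet_eq_of _ _ _ _ d
  · exact ⟨_, Finset.mem_insert_self _ _⟩
  · intro v hv
    rcases Finset.mem_insert.mp hv with rfl | hv
    · refine ⟨Or.inr (adj_fwd _ _ _), ?_⟩
      have := dist_mismatch ht hr (x + 1) (by omega) (by omega) j hs
      rw [hxc]
      omega
    · obtain ⟨j', -, rfl⟩ := Finset.mem_image.mp hv
      refine ⟨Or.inr (adj_rung _ _ _ (by simp)), ?_⟩
      have := dist_match ht hr x (by omega) (by omega) j'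
      rw [hb]
      omega
  · intro v hv hvS
    rcases hv with rfl | hv
    · have := dist_mismatch ht hr x (by omega) (by omega) j hs
      omega
    · rcases adj_lad_cases hv with ⟨j', s', hs', rfl⟩ | rfl | rfl | ⟨q', k, hk, hp, -, rfl⟩
      · exfalso
        apply hvS
        have : s' = !s := by rcases s with _ | _ <;> rcases s' with _ | _ <;> simp_all
        subst this
        exact Finset.mem_insert_of_mem (Finset.mem_image_of_mem _ (Finset.mem_univ _))
      · exact absurd (Finset.mem_insert_self _ _) hvS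
      · have := dist_mismatch ht hr (x - 1) (by omega) (by omega) j hs
        rw [hxc']
        omega
      · have := dist_stick_ge hr x hx hx' q' k hk hp
        omega

theorem greedy_match (ht : t ≤ 1) (hr : IsTarget q t r) (x : ℤ) (hx : x + 2 ≤ P.b q)
    (hx' : (P.b q : ℤ) + 2 - 2 * P.u ≤ x) (j : Fin P.M) :
    greedySet (Gr P) (lad (x : ZMod P.N) j (Nat.bodd q)) r =
      {lad ((x : ZMod P.N) + 1) j (Nat.bodd q)} := by
  have hBge : (P.b q : ℤ) + 3 ≤ P.B := by
    have h5 := P.b_le (Nat.lt_succ_iff.mp q.2)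
    unfold Par.B
    omega
  obtain ⟨d, hd⟩ : ∃ d : ℕ, (d : ℤ) = P.B - x - t - 1 := ⟨(P.B - x - t - 1).toNat, by omega⟩
  have hxc : ((x : ZMod P.N) + 1) = ((x + 1 : ℤ) : ZMod P.N) := by push_cast; rfl
  have hxc' : ((x : ZMod P.N) - 1) = ((x - 1 : ℤ) : ZMod P.N) := by push_cast; rfl
  apply greedySet_eq_of _ _ _ _ d
  · exact ⟨_, Finset.mem_singleton_self _⟩
  · intro v hv
    rw [Finset.mem_singleton] at hv
    subst hv
    refine ⟨Or.inr (adj_fwd _ _ _), ?_⟩
    have := dist_match ht hr (x + 1) (by omega) (by omega) j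
    rw [hxc]
    omega
  · intro v hv hvS
    rcases hv with rfl | hv
    · have := dist_match ht hr x (by omega) (by omega) j
      omega
    · rcases adj_lad_cases hv with ⟨j', s', hs', rfl⟩ | rfl | rfl | ⟨q', k, hk, hp, -, rfl⟩
      · have := dist_mismatch ht hr x (by omega) (by omega) j' hs'
        omega
      · exact absurd (Finset.mem_singleton_self _) hvS
      · have := dist_match ht hr (x - 1) (by omega) (by omega) j
        rw [hxc']
        omega
      · have := dist_stick_ge hr x hx hx' q' k hk hp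
        omega

end Target

end Pool.Agent.H68.GC
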