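import Pool.Agent.H68.GC.Defs

/-!
A lower bound for the expected capture time from a subsolution `F ≤ 1 + P F`.
-/

open scoped ENNReal

namespace Pool.Agent.H68.GC

theorem ex_pure {α : Type*} (x : α) (f : α → ℝ≥0∞) : ∑' a, PMF.pure x a * f a = f x := by
  classical
  rw [tsum_eq_single x]
  · simp
  · intro b hb
    simp [PMF.pure_apply, hb]

theorem ex_bind {α β : Type*} (p : PMF α) (g : α → PMF β) (f : β → ℝ≥0∞) :
    ∑' b, (p.bind g) b * f b = ∑' a, p a * ∑' b, g a b * f b := by
  simp only [PMF.bind_apply, ← ENNReal.tsum_mul_right, ← ENNReal.tsum_mul_left]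
  rw [ENNReal.tsum_comm]
  simp only [mul_assoc]

theorem ex_uniform {α : Type*} (s : Finset α) (hs : s.Nonempty) (f : α → ℝ≥0∞) :
    ∑' a, (PMF.uniformOfFinset s hs) a * f a = (∑ a ∈ s, f a) / s.card := by
  classical
  rw [tsum_eq_sum (s := s)]
  · rw [ENNReal.div_eq_inv_mul, Finset.mul_sum]
    refine Finset.sum_congr rfl fun a ha => ?_
    rw [PMF.uniformOfFinset_apply_of_mem hs ha]
  · intro b hb
    rw [PMF.uniformOfFinset_apply_of_notMem hs hb, zero_mul]

variable {V : Type*} [Fintype V]

/-- the function on states associated with `F` -/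
noncomputable def lift (F : V → V → ℝ) : Option (V × V) → ℝ≥0∞
  | none => 0
  | some (c, r) => ENNReal.ofReal (F c r)

omit [Fintype V] in
theorem ofReal_sum_div (s : Finset V) (f : V → ℝ) (hf : ∀ a ∈ s, 0 ≤ f a) (g : V → ℝ≥0∞)
    (hfg : ∀ a ∈ s, ENNReal.ofReal (f a) ≤ g a) :
    ENNReal.ofReal ((∑ a ∈ s, f a) / s.card) ≤ (∑ a ∈ s, g a) / s.card := by
  rcases s.eq_empty_or_nonempty with h | h
  · subst h; simp
  · have hpos : (0 : ℝ) < s.card := by exact_mod_cast h.card_pos
    rw [ENNReal.ofReal_div_of_pos hpos, ENNReal.ofReal_natCast, ENNReal.ofReal_sum_of_nonneg hf]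
    exact ENNReal.div_le_div_right (Finset.sum_le_sum hfg) _

theorem round_lower (G : SimpleGraph V) (F : V → V → ℝ) (hF0 : ∀ c r, 0 ≤ F c r)
    (hdiag : ∀ c, F c c = 0) (hadj : ∀ c r, G.Adj c r → F c r = 0)
    (hstep : ∀ c r, 0 < F c r → F c r ≤ 1 + (∑ c' ∈ greedySet G c r,
      (∑ r' ∈ nbrs G r, F c' r') / (nbrs G r).card) / (greedySet G c r).card)
    (x : Option (V × V)) :
    lift F x ≤ (if x = none then 0 else 1) + ∑' y, playRound G x y * lift F y := by
  classical
  rcases x with _ | ⟨c, r⟩
  · simp [lift]
  · rw [if_neg (by simp)]
    rcases (hF0 c r).eq_or_lt with h0 | hpos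
    · simp [lift, ← h0]
    · have h1 := hstep c r hpos
      have h2 : lift F (some (c, r)) ≤ ENNReal.ofReal (1 + (∑ c' ∈ greedySet G c r,
          (∑ r' ∈ nbrs G r, F c' r') / (nbrs G r).card) / (greedySet G c r).card) :=
        ENNReal.ofReal_le_ofReal h1
      refine h2.trans ?_
      rw [ENNReal.ofReal_add zero_le_one (by
        apply div_nonneg _ (by positivity)
        exact Finset.sum_nonneg fun a _ => div_nonneg (Finset.sum_nonneg fun b _ => hF0 _ _)
          (by positivity)), ENNReal.ofReal_one]
      gcongr
      show _ ≤ ∑' y, ((copMove G c r).bind fun c' =>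
        if c' = r then PMF.pure none
        else (robberMove G r).bind fun r' =>
          if r' = c' then PMF.pure none else PMF.pure (some (c', r'))) y * lift F y
      rw [ex_bind]
      unfold copMove
      rw [ex_uniform]
      apply ofReal_sum_div
      · intro a _
        exact div_nonneg (Finset.sum_nonneg fun b _ => hF0 _ _) (by positivity)
      · intro c' _
        by_cases hc : c' = r
        · rw [if_pos hc]
          have : ∑ r' ∈ nbrs G r, F c' r' = 0 := by
            apply Finset.sum_eq_zero
            intro r' hr'
            subst hc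
            apply hadj
            simpa [nbrs] using hr'
          rw [this]; simp
        · rw [if_neg hc, ex_bind]
          unfold robberMove
          split_ifs with hne
          · rw [ex_uniform]
            apply ofReal_sum_div
            · intro a _; exact hF0 _ _
            · intro r' _
              by_cases hr : r' = c'
              · rw [if_pos hr, hr, hdiag]; simp
              · rw [if_neg hr, ex_pure]; rfl
          · rw [Finset.not_nonempty_iff_eq_empty] at hne
            rw [hne]; simp

/-- A bounded function `F ≥ 0` that vanishes when the cop is at distance at most `1` from the robber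
and satisfies `F ≤ 1 + P F` wherever it is positive is a lower bound for the expected capture
time. -/
theorem le_expectedCaptureTime (G : SimpleGraph V) (F : V → V → ℝ) (hF0 : ∀ c r, 0 ≤ F c r)
    (hdiag : ∀ c, F c c = 0) (hadj : ∀ c r, G.Adj c r → F c r = 0)
    (hstep : ∀ c r, 0 < F c r → F c r ≤ 1 + (∑ c' ∈ greedySet G c r,
      (∑ r' ∈ nbrs G r, F c' r') / (nbrs G r).card) / (greedySet G c r).card)
    (c r : V) : ENNReal.ofReal (F c r) ≤ expectedCaptureTime G c r := by
  classical
  -- a bound for `F`
  obtain ⟨B, hB⟩ : ∃ B : ℝ, ∀ a b, F a b ≤ B := by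
    obtain ⟨B, hB⟩ := (Set.finite_range (fun p : V × V => F p.1 p.2)).bddAbove
    exact ⟨B, fun a b => hB ⟨(a, b), rfl⟩⟩
  set S : ℕ → ℝ≥0∞ := fun t => 1 - law G c r t none with hS
  have hsurv : ∀ t, ∑' x, law G c r t x * (if x = none then 0 else 1) = S t := by
    intro t
    have h1 : ∑' x, law G c r t x = 1 := (law G c r t).tsum_coe
    have h2 : ∑' x, law G c r t x = law G c r t none +
        ∑' x, law G c r t x * (if x = none then 0 else 1) := by
      have : ∀ x, law G c r t x = law G c r t x * (if x = none then 1 else 0) +
          law G c r t x * (if x = none then 0 else 1) := by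
        intro x; split_ifs <;> simp
      rw [tsum_congr this, ENNReal.tsum_add]
      congr 1
      rw [tsum_eq_single none]
      · simp
      · intro b hb; simp [hb]
    rw [h1] at h2
    exact ENNReal.eq_sub_of_add_eq (PMF.apply_ne_top _ _) (by rw [add_comm]; exact h2.symm)
  have key : ∀ T, lift F (if c = r then none else some (c, r)) ≤
      ∑ t ∈ Finset.range T, S t + ∑' x, law G c r T x * lift F x := by
    intro T
    induction T with
    | zero =>
      simp only [Finset.range_zero, Finset.sum_empty, zero_add, law]
      rw [ex_pure]
    | succ T ih =>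
      refine ih.trans ?_
      rw [Finset.sum_range_succ, add_assoc]
      gcongr
      calc ∑' x, law G c r T x * lift F x
          ≤ ∑' x, law G c r T x * ((if x = none then 0 else 1) +
              ∑' y, playRound G x y * lift F y) := by
            apply ENNReal.tsum_le_tsum
            intro x
            gcongr
            exact round_lower G F hF0 hdiag hadj hstep x
        _ = S T + ∑' x, law G c r (T + 1) x * lift F x := by
            simp only [mul_add]
            rw [ENNReal.tsum_add, hsurv]
            congr 1
            rw [law, ex_bind]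
  have hstart : ENNReal.ofReal (F c r) ≤ lift F (if c = r then none else some (c, r)) := by
    split_ifs with h
    · subst h; simp [hdiag]
    · exact le_rfl
  refine hstart.trans ?_
  by_cases htop : expectedCaptureTime G c r = ⊤
  · rw [htop]; exact le_top
  · have htend : Filter.Tendsto S Filter.atTop (nhds 0) :=
      ENNReal.tendsto_atTop_zero_of_tsum_ne_top htop
    have hbound : ∀ T, lift F (if c = r then none else some (c, r)) ≤
        expectedCaptureTime G c r + ENNReal.ofReal B * S T := by
      intro T
      refine (key T).trans ?_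
      gcongr
      · exact ENNReal.sum_le_tsum _
      · rw [← hsurv, ← ENNReal.tsum_mul_left]
        apply ENNReal.tsum_le_tsum
        intro x
        rcases x with _ | ⟨a, b⟩
        · simp [lift]
        · simp only [lift]
          rw [if_neg (by simp), mul_one, mul_comm]
          gcongr
          exact hB a b
    have hlim : Filter.Tendsto (fun T => expectedCaptureTime G c r + ENNReal.ofReal B * S T)
        Filter.atTop (nhds (expectedCaptureTime G c r + ENNReal.ofReal B * 0)) := by
      apply Filter.Tendsto.const_add
      exact ENNReal.Tendsto.const_mul htend (Or.inr ENNReal.ofReal_ne_top)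
    rw [mul_zero, add_zero] at hlim
    exact ge_of_tendsto' hlim hbound

end Pool.Agent.H68.GC
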