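import Pool.Agent.H68.GC.Greedy

/-!
The neighbours of the robber.
-/

namespace Pool.Agent.H68.GC

open Vtx

variable {P : Par}

theorem sum_vtx (f : Vtx P → ℝ) :
    ∑ v, f v = (∑ x : ZMod P.N × Fin P.M × Bool, f (lad x.1 x.2.1 x.2.2)) +
      ((∑ q : Fin (P.L + 1), ∑ x : Fin (P.W q), f (blob q x)) +
        (∑ q : Fin (P.L + 1), ∑ k : Fin (P.len q), f (st q k))) := by
  rw [← (Vtx.equiv P).symm.sum_comp, Fintype.sum_sum_type, Fintype.sum_sum_type]
  congr 1
  rw [← Finset.univ_sigma_univ, Finset.sum_sigma, ← Finset.univ_sigma_univ, Finset.sum_sigma]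
  rfl

/-- the top vertex of the stick of the `q`-th blob -/
def top (q : Fin (P.L + 1)) : Vtx P :=
  st q ⟨P.len q - 1, by have := P.len_ge (Nat.lt_succ_iff.mp q.2); omega⟩

theorem isTarget_top' (q : Fin (P.L + 1)) : IsTarget q 1 (top q : Vtx P) := by
  have := P.len_ge (Nat.lt_succ_iff.mp q.2)
  exact isTarget_top q _ (by simp only; omega)

theorem sum_nbrs (r : Vtx P) (g : Vtx P → ℝ) :
    ∑ v ∈ nbrs (Gr P) r, g v = ∑ v, (open Classical in if (Gr P).Adj r v then g v else 0) := by
  classical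
  rw [nbrs, Finset.sum_filter]

theorem sum_nbrs_blob (q : Fin (P.L + 1)) (x : Fin (P.W q)) (g : Vtx P → ℝ) :
    ∑ v ∈ nbrs (Gr P) (blob q x), g v =
      (∑ q' : Fin (P.L + 1), if (q' : ℕ) = q + 1 ∨ (q : ℕ) = q' + 1 then
        ∑ y : Fin (P.W q'), g (blob q' y) else 0) + g (top q) := by
  classical
  rw [sum_nbrs, sum_vtx]
  have h1 : ∑ x_1 : ZMod P.N × Fin P.M × Bool,
      (if (Gr P).Adj (blob q x) (lad x_1.1 x_1.2.1 x_1.2.2) then
        g (lad x_1.1 x_1.2.1 x_1.2.2) else 0) = 0 := by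
    apply Finset.sum_eq_zero
    intro y _
    rw [if_neg]
    rintro (h | h) <;> exact h.elim
  have h2 : ∀ q' : Fin (P.L + 1), (∑ y : Fin (P.W q'),
      if (Gr P).Adj (blob q x) (blob q' y) then g (blob q' y) else 0) =
      if (q' : ℕ) = q + 1 ∨ (q : ℕ) = q' + 1 then ∑ y : Fin (P.W q'), g (blob q' y) else 0 := by
    intro q'
    have : ∀ y, (Gr P).Adj (blob q x) (blob q' y) ↔ ((q' : ℕ) = q + 1 ∨ (q : ℕ) = q' + 1) := by
      intro y; rfl
    simp only [this]
    split_ifs <;> simp
  have h3 : (∑ q' : Fin (P.L + 1), ∑ k : Fin (P.len q'),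
      if (Gr P).Adj (blob q x) (st q' k) then g (st q' k) else 0) = g (top q) := by
    rw [Finset.sum_eq_single q]
    · have hl := P.len_ge (Nat.lt_succ_iff.mp q.2)
      rw [Finset.sum_eq_single ⟨P.len q - 1, by omega⟩]
      · rw [if_pos]
        · rfl
        · right; exact ⟨rfl, by simp only; omega⟩
      · intro k _ hk
        rw [if_neg]
        rintro (h | ⟨-, h⟩)
        · exact h.elim
        · apply hk; apply Fin.ext; simp only; omega
      · simp
    · intro q' _ hq'
      apply Finset.sum_eq_zero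
      intro k _
      rw [if_neg]
      rintro (h | ⟨h, -⟩)
      · exact h.elim
      · exact hq' h
    · simp
  rw [h1, h3, zero_add]
  congr 1
  exact Finset.sum_congr rfl fun q' _ => h2 q'

/-- number of vertices of the previous blob -/
def wm (P : Par) (q : ℕ) : ℕ := if q = 0 then 0 else P.W (q - 1)

theorem sum_two (q : Fin (P.L + 1)) (hq : (q : ℕ) < P.L) (f : ℕ → ℝ) :
    (∑ q' : Fin (P.L + 1), if (q' : ℕ) = q + 1 ∨ (q : ℕ) = q' + 1 then
        (P.W q' : ℝ) * f q' else 0) = wm P q * f (q - 1) + P.W (q + 1) * f (q + 1) := by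
  have h1 : ∀ q' : Fin (P.L + 1), (if (q' : ℕ) = q + 1 ∨ (q : ℕ) = q' + 1 then
        (P.W q' : ℝ) * f q' else 0) = (if (q : ℕ) = q' + 1 then (P.W q' : ℝ) * f q' else 0) +
        (if (q' : ℕ) = q + 1 then (P.W q' : ℝ) * f q' else 0) := by
    intro q'
    by_cases h1 : (q' : ℕ) = q + 1
    · rw [if_pos (Or.inl h1), if_neg (by omega), if_pos h1, zero_add]
    · by_cases h2 : (q : ℕ) = q' + 1
      · rw [if_pos (Or.inr h2), if_pos h2, if_neg h1, add_zero]
      · rw [if_neg (by tauto), if_neg h2, if_neg h1, add_zero]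
  rw [Finset.sum_congr rfl fun q' _ => h1 q', Finset.sum_add_distrib]
  congr 1
  · unfold wm
    split_ifs with h
    · rw [Nat.cast_zero, zero_mul]
      apply Finset.sum_eq_zero
      intro q' _
      rw [if_neg (by omega)]
    · rw [Finset.sum_eq_single ⟨(q : ℕ) - 1, by omega⟩]
      · rw [if_pos (by simp only; omega)]
      · intro q' _ hq'
        rw [if_neg]
        intro h'
        apply hq'; apply Fin.ext; simp only; omega
      · simp
  · rw [Finset.sum_eq_single ⟨(q : ℕ) + 1, by omega⟩]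
    · rw [if_pos rfl]
    · intro q' _ hq'
      rw [if_neg]
      intro h'
      apply hq'; apply Fin.ext; simp only; omega
    · simp

/-- degree of a vertex of the `q`-th blob -/
noncomputable def dg (P : Par) (q : ℕ) : ℝ := wm P q + P.W (q + 1) + 1

theorem dg_pos (q : ℕ) : 0 < dg P q := by unfold dg; positivity

theorem card_nbrs_blob (q : Fin (P.L + 1)) (hq : (q : ℕ) < P.L) (x : Fin (P.W q)) :
    ((nbrs (Gr P) (blob q x)).card : ℝ) = dg P q := by
  have h1 := sum_nbrs_blob q x (fun _ => 1)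
  have h2 := sum_two q hq (fun _ => 1)
  simp only [mul_one] at h2
  simp only [Finset.sum_const, Finset.card_univ, Fintype.card_fin, nsmul_eq_mul, mul_one] at h1
  rw [h1, h2]; rfl

/-- average over the neighbours of a vertex in the `q`-th blob -/
theorem avg_nbrs_blob (q : Fin (P.L + 1)) (hq : (q : ℕ) < P.L) (x : Fin (P.W q))
    (g : Vtx P → ℝ) (f : ℕ → ℝ) (T : ℝ) (hf : ∀ (q' : Fin (P.L + 1)) (y : Fin (P.W q')),
      ((q' : ℕ) = q + 1 ∨ (q : ℕ) = q' + 1) → f q' ≤ g (blob q' y)) (hT : T ≤ g (top q)) :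
    (wm P q * f (q - 1) + P.W (q + 1) * f (q + 1) + T) / dg P q ≤
      (∑ v ∈ nbrs (Gr P) (blob q x), g v) / (nbrs (Gr P) (blob q x)).card := by
  rw [card_nbrs_blob q hq]
  have hd := dg_pos (P := P) q
  gcongr
  rw [sum_nbrs_blob, ← sum_two q hq]
  gcongr with q' _
  split_ifs with h
  · calc (P.W q' : ℝ) * f q' = ∑ y : Fin (P.W q'), f q' := by simp
      _ ≤ _ := Finset.sum_le_sum fun y _ => hf q' y h
  · exact le_rfl

theorem avg_nbrs_top (q : Fin (P.L + 1)) (g : Vtx P → ℝ) (hg : ∀ v, 0 ≤ g v) (T : ℝ)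
    (hT : ∀ y, T ≤ g (blob q y)) :
    (P.W q * T) / (P.W q + 1) ≤
      (∑ v ∈ nbrs (Gr P) (top q), g v) / (nbrs (Gr P) (top q)).card := by
  classical
  have hl := P.len_ge (Nat.lt_succ_iff.mp q.2)
  have hsum : ∀ g : Vtx P → ℝ, ∑ v ∈ nbrs (Gr P) (top q), g v =
      (∑ y, g (blob q y)) + g (st q ⟨P.len q - 2, by omega⟩) := by
    intro g
    rw [sum_nbrs, sum_vtx]
    have h1 : ∑ x_1 : ZMod P.N × Fin P.M × Bool,
        (if (Gr P).Adj (top q) (lad x_1.1 x_1.2.1 x_1.2.2) then
          g (lad x_1.1 x_1.2.1 x_1.2.2) else 0) = 0 := by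
      apply Finset.sum_eq_zero
      intro y _
      rw [if_neg]
      rintro (h | ⟨h, -⟩)
      · exact h.elim
      · simp only at h; omega
    have h2 : (∑ q' : Fin (P.L + 1), ∑ y : Fin (P.W q'),
        if (Gr P).Adj (top q) (blob q' y) then g (blob q' y) else 0) = ∑ y, g (blob q y) := by
      rw [Finset.sum_eq_single q]
      · apply Finset.sum_congr rfl
        intro y _
        rw [if_pos]
        left; exact ⟨rfl, by simp only; omega⟩
      · intro q' _ hq'
        apply Finset.sum_eq_zero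
        intro k _
        rw [if_neg]
        rintro (⟨h, -⟩ | h)
        · exact hq' h.symm
        · exact h.elim
      · simp
    have h3 : (∑ q' : Fin (P.L + 1), ∑ k : Fin (P.len q'),
        if (Gr P).Adj (top q) (st q' k) then g (st q' k) else 0) =
        g (st q ⟨P.len q - 2, by omega⟩) := by
      rw [Finset.sum_eq_single q]
      · rw [Finset.sum_eq_single ⟨P.len q - 2, by omega⟩]
        · rw [if_pos]
          right; exact ⟨rfl, by simp only; omega⟩
        · intro k _ hk
          rw [if_neg]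
          rintro (⟨-, h⟩ | ⟨-, h⟩)
          · have := k.2
            simp only at h
            omega
          · apply hk; apply Fin.ext; simp only at *; omega
        · simp
      · intro q' _ hq'
        apply Finset.sum_eq_zero
        intro k _
        rw [if_neg]
        rintro (⟨h, -⟩ | ⟨h, -⟩)
        · exact hq' h.symm
        · exact hq' h
      · simp
    rw [h1, h2, h3, zero_add]
  have hcard : ((nbrs (Gr P) (top q)).card : ℝ) = P.W q + 1 := by
    have := hsum (fun _ => 1)
    simpa using this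
  rw [hcard, hsum]
  gcongr
  have h1 : (P.W q : ℝ) * T ≤ ∑ y, g (blob q y) := by
    calc (P.W q : ℝ) * T = ∑ y : Fin (P.W q), T := by simp
      _ ≤ _ := Finset.sum_le_sum fun y _ => hT y
  have h2 := hg (st q ⟨P.len q - 2, by omega⟩)
  linarith

end Pool.Agent.H68.GC
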