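import Pool.Agent.H68.GC.Chain

/-!
The choice of the parameters: the numerical estimates.
-/

namespace Pool.Agent.H68.GC

/-- numerical hypotheses on the parameters -/
structure Num (K R Λ a u J ρ : ℕ) : Prop where
  hK : 1 ≤ K
  hR : 8192 * K ^ 2 ≤ R
  hΛ : 1024 * K ≤ Λ
  hL : 16 * K * u = R * J
  ha : 8 * (R * J) ≤ a ^ 2
  ha' : 8704 * K ≤ a
  hu : (3 * R + 2) * (a * Λ ^ R) ≤ u
  hu' : 24 * (R + 1) ≤ u
  hJ : 8 ≤ J
  hρ : 256 * K * J * (Λ + 18) ≤ ρ
  hρ2 : (R * J + 1) * (2 * (R * J) + u + 3) ≤ ρ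

/-- sizes of the blobs -/
def Wf (a Λ J ρ q : ℕ) : ℕ := a * Λ ^ (q / J) * (if q % J < 2 then ρ ^ 2 else ρ)

variable {K R Λ a u J ρ : ℕ}

namespace Num

theorem Λpos (h : Num K R Λ a u J ρ) : 1 ≤ Λ := by have := h.hK; have := h.hΛ; omega

theorem apos (h : Num K R Λ a u J ρ) : 1 ≤ a := by have := h.hK; have := h.ha'; omega

theorem ρpos (h : Num K R Λ a u J ρ) : 256 * K ≤ ρ := by
  have h1 := h.hρ
  have h2 := h.hJ
  calc 256 * K = 256 * K * 1 * 1 := by ring
    _ ≤ 256 * K * J * (Λ + 18) := by gcongr <;> omega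
    _ ≤ ρ := h1

theorem ρge (h : Num K R Λ a u J ρ) : 256 ≤ ρ := by have := h.ρpos; have := h.hK; omega

end Num

/-- the parameters of the graph -/
def par (h : Num K R Λ a u J ρ) : Par where
  u := u
  K := K
  M := 16 * ρ ^ 2
  W := Wf a Λ J ρ
  hu := by have := h.hu'; omega
  hM := by have := h.ρge; positivity
  hW := fun q => by
    have h1 := h.ρge
    have h2 := h.apos
    have h3 := h.Λpos
    unfold Wf
    split_ifs <;> positivity

variable (h : Num K R Λ a u J ρ)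

theorem par_W (q : ℕ) : ((par h).W q : ℝ) =
    a * Λ ^ (q / J) * (if q % J < 2 then (ρ : ℝ) ^ 2 else ρ) := by
  change ((Wf a Λ J ρ q : ℕ) : ℝ) = _
  unfold Wf
  push_cast
  rfl

theorem par_M : (((par h).M : ℕ) : ℝ) = 16 * ρ ^ 2 := by
  change ((16 * ρ ^ 2 : ℕ) : ℝ) = _
  push_cast; rfl

theorem par_L : (par h).L = R * J := by
  change 16 * K * u = _
  exact h.hL

/-- the scale of the block containing `q` -/
noncomputable def AA (a Λ J q : ℕ) : ℝ := a * Λ ^ (q / J)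

theorem div_succ {q : ℕ} (hJ : 0 < J) (hq : q % J + 1 < J) :
    (q + 1) / J = q / J ∧ (q + 1) % J = q % J + 1 := by
  have e : q + 1 = q % J + 1 + J * (q / J) := by have := Nat.div_add_mod q J; omega
  constructor
  · rw [e, Nat.add_mul_div_left _ _ hJ, Nat.div_eq_of_lt hq]; simp
  · rw [e, Nat.add_mul_mod_self_left, Nat.mod_eq_of_lt hq]

include h

theorem AA_pos (q : ℕ) : 0 < AA a Λ J q := by
  have h1 : (1 : ℝ) ≤ a := by exact_mod_cast h.apos
  have h2 : (1 : ℝ) ≤ Λ := by exact_mod_cast h.Λpos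
  unfold AA; positivity

theorem AA_ge (q : ℕ) : (a : ℝ) ≤ AA a Λ J q := by
  have h1 : (1 : ℝ) ≤ a := by exact_mod_cast h.apos
  have h2 : (1 : ℝ) ≤ Λ := by exact_mod_cast h.Λpos
  unfold AA
  have : (1 : ℝ) ≤ (Λ : ℝ) ^ (q / J) := one_le_pow₀ h2
  exact le_mul_of_one_le_right (by positivity) this

theorem AA_mono {q q' : ℕ} (hq : q ≤ q') : AA a Λ J q ≤ AA a Λ J q' := by
  have h1 : (1 : ℝ) ≤ a := by exact_mod_cast h.apos
  have h2 : (1 : ℝ) ≤ Λ := by exact_mod_cast h.Λpos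
  unfold AA
  have : q / J ≤ q' / J := Nat.div_le_div_right hq
  gcongr

theorem AA_succ (q : ℕ) : AA a Λ J (q + 1) ≤ Λ * AA a Λ J q := by
  have h1 : (1 : ℝ) ≤ a := by exact_mod_cast h.apos
  have h2 : (1 : ℝ) ≤ Λ := by exact_mod_cast h.Λpos
  unfold AA
  have : (q + 1) / J ≤ q / J + 1 := by
    rw [Nat.succ_div]; split_ifs <;> omega
  calc (a : ℝ) * Λ ^ ((q + 1) / J) ≤ a * Λ ^ (q / J + 1) := by gcongr
    _ = Λ * (a * Λ ^ (q / J)) := by ring

theorem W_ge (q : ℕ) : AA a Λ J q * ρ ≤ (par h).W q := by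
  rw [par_W]
  have h1 := AA_pos h q
  have h2 : (256 : ℝ) ≤ ρ := by exact_mod_cast h.ρge
  unfold AA at *
  split_ifs
  · have : (ρ : ℝ) ≤ ρ ^ 2 := by nlinarith
    gcongr
  · exact le_refl _

theorem W_le (q : ℕ) : ((par h).W q : ℝ) ≤ AA a Λ J q * ρ ^ 2 := by
  rw [par_W]
  have h1 := AA_pos h q
  have h2 : (256 : ℝ) ≤ ρ := by exact_mod_cast h.ρge
  have : (ρ : ℝ) ≤ ρ ^ 2 := by nlinarith
  unfold AA at *
  split_ifs
  · exact le_refl _
  · gcongr

theorem W_heavy {q : ℕ} (hq : q % J < 2) : ((par h).W q : ℝ) = AA a Λ J q * ρ ^ 2 := by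
  rw [par_W, if_pos hq]; rfl

theorem W_light {q : ℕ} (hq : 2 ≤ q % J) : ((par h).W q : ℝ) = AA a Λ J q * ρ := by
  rw [par_W, if_neg (by omega)]; rfl

theorem kap_ge (q : ℕ) : (AA a Λ J q) ^ 2 * ρ ^ 2 ≤ kap (par h) q := by
  unfold kap
  have h1 := W_ge h q
  have h2 := W_ge h (q + 1)
  have h3 := AA_mono h (Nat.le_succ q)
  have h4 := AA_pos h q
  have h5 := AA_pos h (q + 1)
  calc (AA a Λ J q) ^ 2 * ρ ^ 2 = (AA a Λ J q * ρ) * (AA a Λ J q * ρ) := by ring
    _ ≤ (AA a Λ J q * ρ) * (AA a Λ J (q + 1) * ρ) := by gcongr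
    _ ≤ _ := by gcongr

theorem kap_interior {q : ℕ} (hq : 2 ≤ q % J) (hq' : q % J + 1 < J) :
    kap (par h) q = (AA a Λ J q) ^ 2 * ρ ^ 2 := by
  obtain ⟨h1, h2⟩ := div_succ (by have := h.hJ; omega) hq'
  unfold kap
  rw [W_light h hq, W_light h (by omega)]
  have : AA a Λ J (q + 1) = AA a Λ J q := by unfold AA; rw [h1]
  rw [this]; ring

/-! ### Block sums -/

omit h in
theorem sum_block_le {f : ℕ → ℝ} {σ x : ℝ} (hx : 2 ≤ x) (hσ : 0 ≤ σ)
    (hb : ∀ k, ∑ j ∈ Finset.range J, f (k * J + j) ≤ σ * x ^ k) (k : ℕ) :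
    ∑ y ∈ Finset.range ((k + 1) * J), f y ≤ σ * x ^ k * (1 + 2 / x) := by
  induction k with
  | zero =>
    have h1 := hb 0
    simp only [zero_mul, zero_add, one_mul, pow_zero, mul_one] at h1 ⊢
    have : 0 ≤ σ * (2 / x) := by positivity
    linarith
  | succ k ih =>
    rw [add_mul (k + 1) 1 J, one_mul, Finset.sum_range_add]
    have h1 := hb (k + 1)
    have h2 : σ * x ^ k * (1 + 2 / x) ≤ σ * x ^ k * 2 := by
      gcongr
      have : 2 / x ≤ 1 := by rw [div_le_one (by linarith)]; exact hx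
      linarith
    have h3 : σ * x ^ (k + 1) * (1 + 2 / x) = σ * x ^ (k + 1) + σ * x ^ k * 2 := by
      have : x ≠ 0 := by linarith
      field_simp
      ring
    rw [h3]
    linarith

omit h in
theorem sum_le_of_block {f : ℕ → ℝ} {σ x : ℝ} (hJ : 0 < J) (hf : ∀ y, 0 ≤ f y) (hx : 2 ≤ x)
    (hσ : 0 ≤ σ) (hb : ∀ k, ∑ j ∈ Finset.range J, f (k * J + j) ≤ σ * x ^ k) (q : ℕ) :
    ∑ y ∈ Finset.range (q + 1), f y ≤ σ * x ^ (q / J) * (1 + 2 / x) := by
  refine le_trans ?_ (sum_block_le hx hσ hb (q / J))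
  apply Finset.sum_le_sum_of_subset_of_nonneg
  · intro y hy
    rw [Finset.mem_range] at hy ⊢
    have := Nat.lt_div_mul_add (a := q) hJ
    rw [add_mul, one_mul]; omega
  · intro y _ _; exact hf y

/-- the numerator of the source of `HH` -/
noncomputable def fH (P : Par) (x : ℕ) : ℝ := P.W x * (wm P x + P.W (x + 1) + P.M + 1)

omit h in
theorem fH_nonneg (P : Par) (x : ℕ) : 0 ≤ fH P x := by unfold fH; positivity

omit h in
theorem flux_H (P : Par) (q : ℕ) :
    flux P (fun q => ep P * (1 - 1 / dg P q) + 1 / dg P q) q =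
      (∑ x ∈ Finset.range (q + 1), fH P x) / (P.M + 1) := by
  unfold flux
  rw [Finset.sum_div]
  refine Finset.sum_congr rfl fun x _ => ?_
  have h1 := dg_pos (P := P) x
  have h2 : (0 : ℝ) < P.M + 1 := by positivity
  have h3 : dg P x = wm P x + P.W (x + 1) + 1 := rfl
  have h4 : dg P x * (ep P * (1 - 1 / dg P x) + 1 / dg P x) = ep P * (dg P x - 1) + 1 := by
    field_simp
  rw [h4, h3]
  unfold fH ep
  field_simp
  ring

omit h in
theorem flux_one_le (P : Par) (q : ℕ) :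
    flux P (fun _ => 1 / 2) q ≤ (∑ x ∈ Finset.range (q + 1), fH P x) / 2 := by
  unfold flux
  rw [Finset.sum_div]
  refine Finset.sum_le_sum fun x _ => ?_
  have h3 : dg P x = wm P x + P.W (x + 1) + 1 := rfl
  rw [h3]
  unfold fH
  have h4 : (0 : ℝ) ≤ P.M := by positivity
  have h5 := (W_pos (P := P) x).le
  have h6 : (0 : ℝ) ≤ P.W x * P.M := by positivity
  linarith

theorem fH_heavy {x : ℕ} (hx : x % J < 2) :
    fH (par h) x ≤ (AA a Λ J x) ^ 2 * ρ ^ 4 * (1 + 17 / a + 1 / ρ) := by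
  have hJ := h.hJ
  have h1 := AA_pos h x
  have h2 : (256 : ℝ) ≤ ρ := by exact_mod_cast h.ρge
  have ha : (0 : ℝ) < a := by exact_mod_cast h.apos
  have haA := AA_ge h x
  set A := AA a Λ J x with hA
  have h3 : (wm (par h) x : ℝ) + (par h).W (x + 1) ≤ A * ρ + A * ρ ^ 2 := by
    rcases Nat.lt_or_ge (x % J) 1 with h0 | h0
    · have h4 : ((par h).W (x + 1) : ℝ) ≤ A * ρ ^ 2 := by
        obtain ⟨e1, e2⟩ := div_succ (J := J) (q := x) (by omega) (by omega)
        have := W_le h (x + 1)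
        have e3 : AA a Λ J (x + 1) = A := by rw [hA]; unfold AA; rw [e1]
        rwa [e3] at this
      have h5 : (wm (par h) x : ℝ) ≤ A * ρ := by
        rcases Nat.eq_zero_or_pos x with hx0 | hxp
        · subst hx0; simp [wm]; positivity
        · obtain ⟨y, rfl⟩ : ∃ y, x = y + 1 := ⟨x - 1, by omega⟩
          have e : (wm (par h) (y + 1) : ℝ) = (par h).W y := by simp [wm]
          rw [e]
          have hy : 2 ≤ y % J := by
            by_contra hcon
            have := (div_succ (J := J) (q := y) (by omega) (by omega)).2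
            omega
          rw [W_light h hy]
          have := AA_mono h (Nat.le_succ y)
          gcongr
      linarith
    · have h4 : ((par h).W (x + 1) : ℝ) ≤ A * ρ := by
        obtain ⟨e1, e2⟩ := div_succ (J := J) (q := x) (by omega) (by omega)
        have e3 : AA a Λ J (x + 1) = A := by rw [hA]; unfold AA; rw [e1]
        rw [W_light h (by omega), e3]
      have h5 : (wm (par h) x : ℝ) ≤ A * ρ ^ 2 := by
        obtain ⟨y, rfl⟩ : ∃ y, x = y + 1 := ⟨x - 1, by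
          have : x ≠ 0 := by rintro rfl; simp at h0
          omega⟩
        have e : (wm (par h) (y + 1) : ℝ) = (par h).W y := by simp [wm]
        rw [e]
        refine (W_le h y).trans ?_
        have := AA_mono h (Nat.le_succ y)
        gcongr
      linarith
  unfold fH
  rw [W_heavy h hx, par_M, ← hA]
  have h7 : (17 : ℝ) * ρ ^ 2 ≤ 17 / a * (A * ρ ^ 2) := by
    rw [div_mul_eq_mul_div, le_div_iff₀ ha]
    nlinarith [mul_le_mul_of_nonneg_right haA (by positivity : (0 : ℝ) ≤ 17 * ρ ^ 2)]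
  have h8 : (1 : ℝ) ≤ ρ ^ 2 := by nlinarith
  have h9 : 1 / (ρ : ℝ) * (A * ρ ^ 2) = A * ρ := by field_simp
  calc A * ρ ^ 2 * ((wm (par h) x : ℝ) + (par h).W (x + 1) + 16 * ρ ^ 2 + 1)
      ≤ A * ρ ^ 2 * (A * ρ ^ 2 + 17 / a * (A * ρ ^ 2) + 1 / ρ * (A * ρ ^ 2)) := by
        refine mul_le_mul_of_nonneg_left ?_ (by positivity)
        rw [h9]; linarith
    _ = A ^ 2 * ρ ^ 4 * (1 + 17 / a + 1 / ρ) := by ring

theorem fH_light {x : ℕ} (hx : 2 ≤ x % J) :
    fH (par h) x ≤ (AA a Λ J x) ^ 2 * ρ ^ 3 * (Λ + 18) := by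
  have h1 := AA_pos h x
  have h2 : (256 : ℝ) ≤ ρ := by exact_mod_cast h.ρge
  have ha : (1 : ℝ) ≤ a := by exact_mod_cast h.apos
  have haA := AA_ge h x
  set A := AA a Λ J x with hA
  have h4 : ((par h).W (x + 1) : ℝ) ≤ Λ * A * ρ ^ 2 := by
    refine (W_le h (x + 1)).trans ?_
    have := AA_succ h x
    gcongr
  have h5 : (wm (par h) x : ℝ) ≤ A * ρ ^ 2 := by
    obtain ⟨y, rfl⟩ : ∃ y, x = y + 1 := ⟨x - 1, by
      have : x ≠ 0 := by rintro rfl; simp at hx
      omega⟩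
    have e : (wm (par h) (y + 1) : ℝ) = (par h).W y := by simp [wm]
    rw [e]
    refine (W_le h y).trans ?_
    have := AA_mono h (Nat.le_succ y)
    gcongr
  unfold fH
  rw [W_light h hx, par_M, ← hA]
  have h8 : (1 : ℝ) ≤ ρ ^ 2 := by nlinarith
  have h9 : 1 * (ρ : ℝ) ^ 2 ≤ A * ρ ^ 2 := by gcongr; linarith
  calc A * ρ * ((wm (par h) x : ℝ) + (par h).W (x + 1) + 16 * ρ ^ 2 + 1)
      ≤ A * ρ * (A * ρ ^ 2 + Λ * A * ρ ^ 2 + 17 * (A * ρ ^ 2)) := by
        refine mul_le_mul_of_nonneg_left ?_ (by positivity)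
        linarith
    _ = A ^ 2 * ρ ^ 3 * (Λ + 18) := by ring

omit h in
theorem AA_block {k j : ℕ} (hj : j < J) : AA a Λ J (k * J + j) = a * Λ ^ k := by
  unfold AA
  rw [mul_comm k J, Nat.mul_add_div (by omega), Nat.div_eq_of_lt hj, add_zero]

omit h in
theorem mod_block {k j : ℕ} (hj : j < J) : (k * J + j) % J = j := by
  rw [mul_comm k J, Nat.mul_add_mod, Nat.mod_eq_of_lt hj]

theorem kap0 : (17 : ℝ) / a ≤ 1 / (512 * K) ∧ (1 : ℝ) / ρ ≤ 1 / (512 * K) ∧
    (J : ℝ) * (Λ + 18) / (2 * ρ) ≤ 1 / (512 * K) ∧ (2 : ℝ) / Λ ^ 2 ≤ 1 / (512 * K) ∧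
    (2 : ℝ) ≤ Λ ^ 2 ∧ (1 : ℝ) / (16 * ρ ^ 2) ≤ 1 / (64 * K) := by
  have hK : (1 : ℝ) ≤ K := by exact_mod_cast h.hK
  have ha : (8704 : ℝ) * K ≤ a := by exact_mod_cast h.ha'
  have hρ : (256 : ℝ) * K * J * (Λ + 18) ≤ ρ := by exact_mod_cast h.hρ
  have hΛ : (1024 : ℝ) * K ≤ Λ := by exact_mod_cast h.hΛ
  have hJ : (8 : ℝ) ≤ J := by exact_mod_cast h.hJ
  have hΛ0 : (0 : ℝ) ≤ Λ := by positivity
  have hJJ : (8 : ℝ) * 18 ≤ J * (Λ + 18) := by
    have : (18 : ℝ) ≤ Λ + 18 := by linarith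
    gcongr
  have hρ' : (36864 : ℝ) * K ≤ ρ := by
    calc (36864 : ℝ) * K = 256 * K * (8 * 18) := by ring
      _ ≤ 256 * K * (J * (Λ + 18)) := by gcongr
      _ ≤ ρ := by rw [← mul_assoc]; exact hρ
  have hρ0 : (0 : ℝ) < ρ := by linarith
  have hΛ2 : (1024 : ℝ) * K * 1 ≤ Λ ^ 2 := by
    have : (1 : ℝ) ≤ Λ := by linarith
    rw [pow_two]; gcongr
  have hρ1 : (1 : ℝ) ≤ ρ := by linarith
  refine ⟨?_, ?_, ?_, ?_, ?_, ?_⟩
  · rw [div_le_div_iff₀ (by linarith) (by linarith)]; linarith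
  · rw [div_le_div_iff₀ (by linarith) (by linarith)]; linarith
  · rw [div_le_div_iff₀ (by linarith) (by linarith)]; nlinarith
  · rw [div_le_div_iff₀ (by nlinarith) (by linarith)]; nlinarith
  · nlinarith
  · rw [div_le_div_iff₀ (by positivity) (by linarith)]; nlinarith

theorem fH_block (k : ℕ) : ∑ j ∈ Finset.range J, fH (par h) (k * J + j) ≤
    2 * a ^ 2 * ρ ^ 4 * (1 + 3 * (1 / (512 * K))) * ((Λ : ℝ) ^ 2) ^ k := by
  have hJ := h.hJ
  obtain ⟨n, rfl⟩ : ∃ n, J = 2 + n := ⟨J - 2, by omega⟩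
  obtain ⟨e1, e2, e3, e4, -, -⟩ := kap0 h
  have hρ : (256 : ℝ) ≤ ρ := by exact_mod_cast h.ρge
  have hρ0 : (0 : ℝ) < ρ := by linarith
  rw [Finset.sum_range_add]
  have h1 : ∑ j ∈ Finset.range 2, fH (par h) (k * (2 + n) + j) ≤
      ∑ j ∈ Finset.range 2, (a * (Λ : ℝ) ^ k) ^ 2 * ρ ^ 4 * (1 + 17 / a + 1 / ρ) := by
    refine Finset.sum_le_sum fun j hj => ?_
    rw [Finset.mem_range] at hj
    have := fH_heavy h (x := k * (2 + n) + j) (by rw [mod_block (by omega)]; exact hj)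
    rwa [AA_block (by omega)] at this
  have h2 : ∑ j ∈ Finset.range n, fH (par h) (k * (2 + n) + (2 + j)) ≤
      ∑ j ∈ Finset.range n, (a * (Λ : ℝ) ^ k) ^ 2 * ρ ^ 3 * (Λ + 18) := by
    refine Finset.sum_le_sum fun j hj => ?_
    rw [Finset.mem_range] at hj
    have := fH_light h (x := k * (2 + n) + (2 + j)) (by rw [mod_block (by omega)]; omega)
    rwa [AA_block (by omega)] at this
  rw [Finset.sum_const, Finset.card_range, nsmul_eq_mul] at h1 h2
  simp only [← add_assoc] at h1 h2 ⊢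
  refine (add_le_add h1 h2).trans ?_
  push_cast at e3 ⊢
  have e5 : (n : ℝ) * (Λ + 18) / (2 * ρ) ≤ 1 / (512 * K) := by
    refine le_trans ?_ e3
    gcongr
    linarith
  have e6 : (n : ℝ) * ((a * (Λ : ℝ) ^ k) ^ 2 * ρ ^ 3 * (Λ + 18)) =
      2 * ((a * (Λ : ℝ) ^ k) ^ 2 * ρ ^ 4) * ((n : ℝ) * (Λ + 18) / (2 * ρ)) := by
    field_simp
  rw [e6]
  have e7 : 2 * (a : ℝ) ^ 2 * ρ ^ 4 * (1 + 3 * (1 / (512 * K))) * ((Λ : ℝ) ^ 2) ^ k =
      2 * ((a * (Λ : ℝ) ^ k) ^ 2 * ρ ^ 4) * (1 + 3 * (1 / (512 * K))) := by ring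
  rw [e7, show 2 * ((a * (Λ : ℝ) ^ k) ^ 2 * ρ ^ 4 * (1 + 17 / a + 1 / ρ)) =
    2 * ((a * (Λ : ℝ) ^ k) ^ 2 * ρ ^ 4) * (1 + 17 / a + 1 / ρ) by ring, ← mul_add]
  refine mul_le_mul_of_nonneg_left ?_ (by positivity)
  linarith

theorem sum_fH_le (q : ℕ) : ∑ x ∈ Finset.range (q + 1), fH (par h) x ≤
    2 * (AA a Λ J q) ^ 2 * ρ ^ 4 * (1 + 1 / (64 * K)) := by
  have hK : (1 : ℝ) ≤ K := by exact_mod_cast h.hK
  obtain ⟨e1, e2, e3, e4, e5, -⟩ := kap0 h
  refine (sum_le_of_block (by have := h.hJ; omega) (fH_nonneg _) e5 (by positivity)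
    (fH_block h) q).trans ?_
  have e6 : 2 * (a : ℝ) ^ 2 * ρ ^ 4 * (1 + 3 * (1 / (512 * K))) * ((Λ : ℝ) ^ 2) ^ (q / J) =
      2 * (AA a Λ J q) ^ 2 * ρ ^ 4 * (1 + 3 * (1 / (512 * K))) := by unfold AA; ring
  rw [e6, mul_assoc]
  refine mul_le_mul_of_nonneg_left ?_ (by positivity)
  have e7 : (1 : ℝ) / (64 * K) = 8 * (1 / (512 * K)) := by ring
  have e8 : (1 : ℝ) / (512 * K) ≤ 1 / 512 := by
    rw [div_le_div_iff₀ (by linarith) (by norm_num)]; linarith
  have e9 : (0 : ℝ) ≤ 1 / (512 * K) := by positivity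
  have e10 : (0 : ℝ) ≤ 2 / Λ ^ 2 := by positivity
  rw [e7]
  nlinarith

theorem flux_H_le (q : ℕ) :
    flux (par h) (fun q => ep (par h) * (1 - 1 / dg (par h) q) + 1 / dg (par h) q) q ≤
      (AA a Λ J q) ^ 2 * ρ ^ 2 * ((1 + 1 / (64 * K)) / 8) := by
  rw [flux_H, par_M, div_le_iff₀ (by positivity)]
  refine (sum_fH_le h q).trans ?_
  have : 0 ≤ (AA a Λ J q) ^ 2 * ρ ^ 2 * ((1 + 1 / (64 * (K : ℝ))) / 8) := by positivity
  nlinarith

theorem flux_one_le' (q : ℕ) :
    flux (par h) (fun _ => 1 / 2) q ≤ (AA a Λ J q) ^ 2 * ρ ^ 2 * (2 * ρ ^ 2) := by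
  refine (flux_one_le _ q).trans ?_
  have := sum_fH_le h q
  have hK : (1 : ℝ) ≤ K := by exact_mod_cast h.hK
  have e8 : (1 : ℝ) / (64 * K) ≤ 1 := by
    rw [div_le_one (by linarith)]; linarith
  have : 2 * (AA a Λ J q) ^ 2 * (ρ : ℝ) ^ 4 * (1 + 1 / (64 * K)) ≤
      2 * (AA a Λ J q) ^ 2 * ρ ^ 4 * 2 := by gcongr; linarith
  linarith

/-! ### Consequences for the potentials -/

/-- the source of `HH` -/
noncomputable abbrev srcH (P : Par) (q : ℕ) : ℝ := ep P * (1 - 1 / dg P q) + 1 / dg P q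

/-- the drift -/
noncomputable def DD (P : Par) (q : ℕ) : ℝ := flux P (srcH P) q / kap P q

omit h in
theorem HH_step {P : Par} {q : ℕ} (hq : q < P.L) : HH P q = DD P q + HH P (q + 1) :=
  pot_step (srcH P) hq

omit h in
theorem DD_nonneg (P : Par) (q : ℕ) : 0 ≤ DD P q :=
  div_nonneg (flux_nonneg sourceH_nonneg q) (kap_pos q).le

theorem DD_le (q : ℕ) : DD (par h) q ≤ (1 + 1 / (64 * K)) / 8 := by
  unfold DD
  rw [div_le_iff₀ (kap_pos q)]
  refine (flux_H_le h q).trans ?_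
  rw [mul_comm]
  refine mul_le_mul_of_nonneg_left (kap_ge h q) (by positivity)

theorem eta_le : (1 : ℝ) / (64 * K) ≤ 1 / 64 := by
  have hK : (1 : ℝ) ≤ K := by exact_mod_cast h.hK
  rw [div_le_div_iff₀ (by linarith) (by norm_num)]; linarith

omit h in
/-- the two heavy blobs of a block -/
theorem heavy_sum {f : ℕ → ℝ} (hf : ∀ x, 0 ≤ f x) {q : ℕ} (hq : 1 ≤ q % J) :
    f (J * (q / J)) + f (J * (q / J) + 1) ≤ ∑ x ∈ Finset.range (q + 1), f x := by
  have e := Nat.div_add_mod q J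
  have : ∑ x ∈ ({J * (q / J), J * (q / J) + 1} : Finset ℕ), f x ≤
      ∑ x ∈ Finset.range (q + 1), f x := by
    apply Finset.sum_le_sum_of_subset_of_nonneg
    · intro y hy
      rw [Finset.mem_insert, Finset.mem_singleton] at hy
      rw [Finset.mem_range]
      omega
    · intro y _ _; exact hf y
  rwa [Finset.sum_pair (by omega)] at this

theorem heavy_prod (q : ℕ) :
    ((par h).W (J * (q / J)) : ℝ) * (par h).W (J * (q / J) + 1) = (AA a Λ J q) ^ 2 * ρ ^ 4 := by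
  have hJ := h.hJ
  have m0 : (J * (q / J)) % J = 0 := by simp
  have d0 : (J * (q / J)) / J = q / J := by rw [Nat.mul_div_cancel_left _ (by omega)]
  obtain ⟨e1, e2⟩ := div_succ (J := J) (q := J * (q / J)) (by omega) (by omega)
  rw [W_heavy h (by omega), W_heavy h (by omega)]
  unfold AA
  rw [e1, d0]
  ring

theorem sum_fH_ge {q : ℕ} (hq : 1 ≤ q % J) :
    2 * (AA a Λ J q) ^ 2 * ρ ^ 4 ≤ ∑ x ∈ Finset.range (q + 1), fH (par h) x := by
  refine le_trans ?_ (heavy_sum (fH_nonneg (par h)) hq)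
  have h1 := heavy_prod h q
  set x := J * (q / J)
  have h2 : ((par h).W x : ℝ) * (par h).W (x + 1) ≤ fH (par h) x := by
    unfold fH
    have : (0 : ℝ) ≤ wm (par h) x := by positivity
    have h3 : (0 : ℝ) ≤ (par h).M := by positivity
    gcongr
    linarith
  have h3 : ((par h).W x : ℝ) * (par h).W (x + 1) ≤ fH (par h) (x + 1) := by
    unfold fH
    have e : (wm (par h) (x + 1) : ℝ) = (par h).W x := by simp [wm]
    rw [e, mul_comm]
    have : (0 : ℝ) ≤ (par h).W (x + 1 + 1) := by positivity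
    have h3 : (0 : ℝ) ≤ (par h).M := by positivity
    gcongr
    linarith
  linarith

theorem DD_ge {q : ℕ} (hq : 2 ≤ q % J) (hq' : q % J + 1 < J) :
    (1 - 1 / (64 * K)) / 8 ≤ DD (par h) q := by
  have hρ : (256 : ℝ) ≤ ρ := by exact_mod_cast h.ρge
  have hA := AA_pos h q
  have h1 := sum_fH_ge h (q := q) (by omega)
  obtain ⟨-, -, -, -, -, e6⟩ := kap0 h
  unfold DD
  have h2 := flux_H (par h) q
  change flux (par h) (srcH (par h)) q = _ at h2
  rw [h2, kap_interior h hq hq', par_M, div_div, le_div_iff₀ (by positivity)]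
  refine le_trans ?_ h1
  have h3 : (1 - 1 / (64 * (K : ℝ))) ≤ 1 - 1 / (16 * ρ ^ 2) := by linarith
  have h4 : (1 - 1 / (16 * (ρ : ℝ) ^ 2)) * (16 * ρ ^ 2 + 1) ≤ 16 * ρ ^ 2 := by
    have : (ρ : ℝ) ≠ 0 := by linarith
    have e : (1 - 1 / (16 * (ρ : ℝ) ^ 2)) * (16 * ρ ^ 2 + 1) = 16 * ρ ^ 2 - 1 / (16 * ρ ^ 2) := by
      field_simp; ring
    rw [e]
    have : 0 ≤ 1 / (16 * (ρ : ℝ) ^ 2) := by positivity
    linarith
  have h5 : (1 - 1 / (64 * (K : ℝ))) * (16 * ρ ^ 2 + 1) ≤ 16 * ρ ^ 2 :=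
    le_trans (mul_le_mul_of_nonneg_right h3 (by positivity)) h4
  calc (1 - 1 / (64 * (K : ℝ))) / 8 * ((16 * ρ ^ 2 + 1) * (AA a Λ J q ^ 2 * ρ ^ 2)) =
      ((1 - 1 / (64 * (K : ℝ))) * (16 * ρ ^ 2 + 1)) * (AA a Λ J q ^ 2 * ρ ^ 2 / 8) := by ring
    _ ≤ (16 * ρ ^ 2) * (AA a Λ J q ^ 2 * ρ ^ 2 / 8) := by gcongr
    _ = 2 * AA a Λ J q ^ 2 * ρ ^ 4 := by ring

theorem flux_one_ge {q : ℕ} (hq : 1 ≤ q % J) :
    (AA a Λ J q) ^ 2 * ρ ^ 4 ≤ flux (par h) (fun _ => 1 / 2) q := by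
  unfold flux
  refine le_trans ?_ (heavy_sum (f := fun x => ((par h).W x : ℝ) * (dg (par h) x * (1 / 2)))
    (fun x => mul_nonneg (W_pos x).le (mul_nonneg (dg_pos x).le (by norm_num))) hq)
  have h1 := heavy_prod h q
  set x := J * (q / J)
  have h2 : ((par h).W x : ℝ) * (par h).W (x + 1) ≤ (par h).W x * dg (par h) x := by
    unfold dg
    have : (0 : ℝ) ≤ wm (par h) x := by positivity
    gcongr
    linarith
  have h3 : ((par h).W x : ℝ) * (par h).W (x + 1) ≤ (par h).W (x + 1) * dg (par h) (x + 1) := by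
    unfold dg
    have e : (wm (par h) (x + 1) : ℝ) = (par h).W x := by simp [wm]
    rw [e, mul_comm]
    have : (0 : ℝ) ≤ (par h).W (x + 1 + 1) := by positivity
    gcongr
    linarith
  linarith

/-- exceptional positions in a block -/
noncomputable def bad (J x : ℕ) : ℝ := if x % J < 2 ∨ x % J + 1 = J then 1 else 0

omit h in
theorem bad_nonneg (J x : ℕ) : 0 ≤ bad J x := by unfold bad; split_ifs <;> norm_num

theorem bad_block (k : ℕ) : ∑ j ∈ Finset.range J, bad J (k * J + j) ≤ 3 := by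
  have hJ := h.hJ
  have h1 : ∑ j ∈ Finset.range J, bad J (k * J + j) =
      ∑ j ∈ Finset.range J, if j < 2 ∨ j + 1 = J then (1 : ℝ) else 0 := by
    refine Finset.sum_congr rfl fun j hj => ?_
    rw [Finset.mem_range] at hj
    unfold bad
    rw [mod_block hj]
  rw [h1, Finset.sum_ite, Finset.sum_const_zero, add_zero, Finset.sum_const, nsmul_eq_mul, mul_one]
  have h2 : (Finset.range J).filter (fun j => j < 2 ∨ j + 1 = J) ⊆ {0, 1, J - 1} := by
    intro j hj
    rw [Finset.mem_filter] at hj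
    rw [Finset.mem_insert, Finset.mem_insert, Finset.mem_singleton]
    omega
  have h3 := Finset.card_le_card h2
  have h4 := Finset.card_le_three (a := 0) (b := 1) (c := J - 1)
  exact_mod_cast h3.trans h4

theorem bad_sum (k : ℕ) : ∑ x ∈ Finset.range (k * J), bad J x ≤ 3 * k := by
  induction k with
  | zero => simp
  | succ k ih =>
    rw [add_mul, one_mul, Finset.sum_range_add]
    have := bad_block h k
    push_cast
    linarith

theorem bad_sum' {q : ℕ} (hq : q ≤ R * J) : ∑ x ∈ Finset.range q, bad J x ≤ 3 * R := by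
  refine le_trans ?_ (bad_sum h R)
  apply Finset.sum_le_sum_of_subset_of_nonneg
  · intro y hy
    rw [Finset.mem_range] at hy ⊢
    omega
  · intro y _ _; exact bad_nonneg J y

omit h in
theorem HH_diff {P : Par} {q : ℕ} (hq : q ≤ P.L) :
    HH P 0 - HH P q = ∑ x ∈ Finset.range q, DD P x := by
  induction q with
  | zero => simp
  | succ q ih =>
    rw [Finset.sum_range_succ, ← ih (by omega), HH_step (P := P) (q := q) (by omega)]
    ring

theorem HH_bound {q : ℕ} (hq : q ≤ (par h).L) :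
    |HH (par h) 0 - HH (par h) q - q / 8| ≤ 1 / (64 * K) * (16 * K * u) / 8 + 3 * R / 8 := by
  have hK : (1 : ℝ) ≤ K := by exact_mod_cast h.hK
  have hR : (0 : ℝ) ≤ R := by positivity
  have hqL : (q : ℝ) ≤ 16 * K * u := by
    have : q ≤ 16 * K * u := hq
    exact_mod_cast this
  have hη : (0 : ℝ) ≤ 1 / (64 * K) := by positivity
  rw [HH_diff hq]
  have h1 : ∑ x ∈ Finset.range q, DD (par h) x ≤
      ∑ x ∈ Finset.range q, (1 + 1 / (64 * (K : ℝ))) / 8 :=
    Finset.sum_le_sum fun x _ => DD_le h x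
  have h2 : ∑ x ∈ Finset.range q, ((1 - 1 / (64 * (K : ℝ))) / 8 - bad J x / 8) ≤
      ∑ x ∈ Finset.range q, DD (par h) x := by
    refine Finset.sum_le_sum fun x _ => ?_
    unfold bad
    split_ifs with hb
    · have := DD_nonneg (par h) x
      linarith
    · push Not at hb
      have hJ := h.hJ
      have hlt : x % J < J := Nat.mod_lt _ (by omega)
      have := DD_ge h (q := x) (by omega) (by omega)
      linarith
  rw [Finset.sum_sub_distrib, ← Finset.sum_div (Finset.range q) (fun x => bad J x)] at h2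
  rw [Finset.sum_const, Finset.card_range, nsmul_eq_mul] at h1 h2
  have h3 := bad_sum' h (q := q) (by have := par_L h; omega)
  have h4 : (1 : ℝ) / (64 * K) * q ≤ 1 / (64 * K) * (16 * K * u) := by gcongr
  rw [abs_le]
  constructor <;> linarith

theorem hh_le : hh (par h) 0 ≤ 2 * ρ ^ 2 * (16 * K * u) := by
  unfold hh pot
  have h1 : ∑ x ∈ Finset.Ico 0 (par h).L, flux (par h) (fun _ => 1 / 2) x / kap (par h) x ≤
      ∑ x ∈ Finset.Ico 0 (par h).L, (2 * (ρ : ℝ) ^ 2) := by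
    refine Finset.sum_le_sum fun x _ => ?_
    rw [div_le_iff₀ (kap_pos x)]
    refine (flux_one_le' h x).trans ?_
    rw [mul_comm]
    refine mul_le_mul_of_nonneg_left (kap_ge h x) (by positivity)
  refine h1.trans ?_
  rw [Finset.sum_const, Nat.card_Ico, nsmul_eq_mul]
  have : (par h).L = 16 * K * u := rfl
  rw [this, Nat.sub_zero]
  push_cast
  apply le_of_eq
  ring

theorem hh_ge : ρ ^ 2 * (16 * K * u) / 2 ≤ hh (par h) 0 := by
  unfold hh pot
  have hρ : (256 : ℝ) ≤ ρ := by exact_mod_cast h.ρge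
  have h1 : ∑ x ∈ Finset.Ico 0 (par h).L, (ρ ^ 2 * (1 - bad J x)) ≤
      ∑ x ∈ Finset.Ico 0 (par h).L, flux (par h) (fun _ => 1 / 2) x / kap (par h) x := by
    refine Finset.sum_le_sum fun x _ => ?_
    unfold bad
    split_ifs with hb
    · have := div_nonneg (flux_nonneg (P := par h) (σ := fun _ => 1 / 2) (fun _ => by norm_num) x)
        (kap_pos (P := par h) x).le
      linarith
    · push Not at hb
      have hJ := h.hJ
      have hlt : x % J < J := Nat.mod_lt _ (by omega)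
      rw [kap_interior h (by omega) (by omega), le_div_iff₀ (by have := AA_pos h x; positivity)]
      refine le_trans (le_of_eq ?_) (flux_one_ge h (q := x) (by omega))
      ring
  refine le_trans ?_ h1
  have hb := bad_sum h R
  have hL : (par h).L = R * J := par_L h
  have hLu : (par h).L = 16 * K * u := rfl
  rw [← Finset.mul_sum, Finset.sum_sub_distrib, Finset.sum_const, Nat.card_Ico, nsmul_eq_mul,
    ← Finset.range_eq_Ico, hL]
  have h3 : (16 * K * u : ℝ) = R * J := by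
    have := h.hL
    exact_mod_cast this
  have hJ : (8 : ℝ) ≤ J := by exact_mod_cast h.hJ
  have h4 : (R : ℝ) * 8 ≤ R * J := by gcongr
  rw [h3]
  have h5 : (R : ℝ) * J / 2 ≤ (R * J) * 1 - ∑ x ∈ Finset.range (R * J), bad J x := by linarith
  calc (ρ : ℝ) ^ 2 * (R * J) / 2 = ρ ^ 2 * (R * J / 2) := by ring
    _ ≤ _ := by
      refine mul_le_mul_of_nonneg_left ?_ (by positivity)
      simpa using h5

/-- bound for the energy density -/
theorem energy_le (x : ℕ) :
    kap (par h) x * DD (par h) x ^ 2 ≤ (AA a Λ J x) ^ 2 * ρ ^ 2 / 16 := by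
  have h1 := DD_le h x
  have h2 := DD_nonneg (par h) x
  have h3 := flux_H_le h x
  have h4 : kap (par h) x * DD (par h) x = flux (par h) (srcH (par h)) x := by
    unfold DD; have := kap_pos (P := par h) x; field_simp
  have h5 := eta_le h
  have h6 : 0 ≤ (AA a Λ J x) ^ 2 * (ρ : ℝ) ^ 2 := by positivity
  have h7 : DD (par h) x ≤ 1 / 4 := by linarith
  have h8 : flux (par h) (srcH (par h)) x ≤ (AA a Λ J x) ^ 2 * ρ ^ 2 * (1 / 4) := by
    refine h3.trans ?_
    refine mul_le_mul_of_nonneg_left ?_ h6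
    linarith
  calc kap (par h) x * DD (par h) x ^ 2 = flux (par h) (srcH (par h)) x * DD (par h) x := by
        rw [← h4]; ring
    _ ≤ ((AA a Λ J x) ^ 2 * ρ ^ 2 * (1 / 4)) * (1 / 4) := by gcongr
    _ = _ := by ring

theorem energy_sum (q : ℕ) :
    ∑ x ∈ Finset.range (q + 1), kap (par h) x * DD (par h) x ^ 2 ≤
      J * ((AA a Λ J q) ^ 2 * ρ ^ 2) * (3 / 32) := by
  obtain ⟨e1, e2, e3, e4, e5, -⟩ := kap0 h
  have hK : (1 : ℝ) ≤ K := by exact_mod_cast h.hK
  have hb : ∀ k, ∑ j ∈ Finset.range J, kap (par h) (k * J + j) * DD (par h) (k * J + j) ^ 2 ≤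
      J * (a ^ 2 * ρ ^ 2 / 16) * ((Λ : ℝ) ^ 2) ^ k := by
    intro k
    have : ∑ j ∈ Finset.range J, kap (par h) (k * J + j) * DD (par h) (k * J + j) ^ 2 ≤
        ∑ j ∈ Finset.range J, (a * (Λ : ℝ) ^ k) ^ 2 * ρ ^ 2 / 16 := by
      refine Finset.sum_le_sum fun j hj => ?_
      rw [Finset.mem_range] at hj
      have := energy_le h (k * J + j)
      rwa [AA_block hj] at this
    refine this.trans (le_of_eq ?_)
    rw [Finset.sum_const, Finset.card_range, nsmul_eq_mul]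
    ring
  refine (sum_le_of_block (by have := h.hJ; omega)
    (fun y => mul_nonneg (kap_pos y).le (sq_nonneg _)) e5 (by positivity) hb q).trans ?_
  have e8 : (1 : ℝ) / (512 * K) ≤ 1 / 512 := by
    rw [div_le_div_iff₀ (by linarith) (by norm_num)]; linarith
  have e9 : (J : ℝ) * (a ^ 2 * ρ ^ 2 / 16) * ((Λ : ℝ) ^ 2) ^ (q / J) =
      J * ((AA a Λ J q) ^ 2 * ρ ^ 2) * (1 / 16) := by unfold AA; ring
  rw [e9, mul_assoc]
  refine mul_le_mul_of_nonneg_left ?_ (by positivity)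
  linarith

omit h in
theorem sq_le_of {P : Par} {D : ℝ} (hD : D ≤ 1 / 2) : sq P D ≤ D ^ 2 + 2 * ep P := by
  unfold sq
  have := ep_pos (P := P)
  nlinarith

omit h in
/-- the source of `UU` -/
theorem gam_src {P : Par} (hD : ∀ x, DD P x ≤ 1 / 2) {q : ℕ} (hq : q < P.L) :
    flux P (Gam P) q ≤ 2 * ∑ x ∈ Finset.range (q + 1), kap P x * DD P x ^ 2 +
      2 * ((∑ x ∈ Finset.range (q + 1), fH P x) / (P.M + 1)) := by
  have hg : ∀ x, dg P x * Gam P x = wm P x * sq P (HH P (x - 1) - HH P x) +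
      P.W (x + 1) * sq P (HH P (x + 1) - HH P x) + 1 := by
    intro x
    unfold Gam
    have := dg_pos (P := P) x
    field_simp
  have hMp : (0 : ℝ) < P.M + 1 := by positivity
  have hep := ep_pos (P := P)
  have hr : ∀ x, x < P.L → (P.W (x + 1) : ℝ) * sq P (HH P (x + 1) - HH P x) ≤
      P.W (x + 1) * DD P x ^ 2 + P.W (x + 1) * (2 * ep P) := by
    intro x hx
    rw [← mul_add]
    refine mul_le_mul_of_nonneg_left ?_ (W_pos _).le
    have h1 : HH P (x + 1) - HH P x = - DD P x := by rw [HH_step hx]; ring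
    rw [h1]
    refine (sq_le_of ?_).trans (le_of_eq (by ring))
    have := DD_nonneg P x
    linarith
  have hf : ∀ x, fH P x / (P.M + 1) = P.W x * (ep P * (wm P x + P.W (x + 1)) + 1) := by
    intro x
    unfold fH ep
    field_simp
    ring
  have ht : ∀ x, x < P.L → (P.W x : ℝ) * (dg P x * Gam P x) ≤
      (if x = 0 then 0 else kap P (x - 1) * DD P (x - 1) ^ 2) + kap P x * DD P x ^ 2 +
      2 * (fH P x / (P.M + 1)) := by
    intro x hx
    rw [hg, hf]
    have h1 := mul_le_mul_of_nonneg_left (hr x hx) (W_pos (P := P) x).le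
    have h3 := (W_pos (P := P) x)
    have h6 : kap P x * DD P x ^ 2 = P.W x * (P.W (x + 1) * DD P x ^ 2) := by unfold kap; ring
    rcases Nat.eq_zero_or_pos x with h0 | h0
    · subst h0
      have h2 : (wm P 0 : ℝ) = 0 := by simp [wm]
      rw [h2, if_pos rfl, h6]
      nlinarith
    · obtain ⟨y, rfl⟩ : ∃ y, x = y + 1 := ⟨x - 1, by omega⟩
      have h2 : (wm P (y + 1) : ℝ) = P.W y := by simp [wm]
      rw [h2, if_neg (by omega), Nat.add_sub_cancel, h6]
      have h7 : HH P y - HH P (y + 1) = DD P y := by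
        rw [HH_step (P := P) (q := y) (by omega)]; ring
      rw [h7]
      have h8 : (P.W y : ℝ) * sq P (DD P y) ≤ P.W y * DD P y ^ 2 + P.W y * (2 * ep P) := by
        rw [← mul_add]
        exact mul_le_mul_of_nonneg_left (sq_le_of (hD y)) (W_pos _).le
      have h9 := mul_le_mul_of_nonneg_left h8 (W_pos (P := P) (y + 1)).le
      have h10 : kap P y * DD P y ^ 2 = P.W (y + 1) * (P.W y * DD P y ^ 2) := by unfold kap; ring
      rw [h10]
      nlinarith
  have h1 : flux P (Gam P) q ≤ ∑ x ∈ Finset.range (q + 1),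
      ((if x = 0 then 0 else kap P (x - 1) * DD P (x - 1) ^ 2) + kap P x * DD P x ^ 2 +
      2 * (fH P x / (P.M + 1))) := by
    unfold flux
    refine Finset.sum_le_sum fun x hx => ?_
    rw [Finset.mem_range] at hx
    exact ht x (by omega)
  refine h1.trans ?_
  rw [Finset.sum_add_distrib, Finset.sum_add_distrib, ← Finset.mul_sum, ← Finset.sum_div]
  have h2 : ∑ x ∈ Finset.range (q + 1), (if x = 0 then 0 else kap P (x - 1) * DD P (x - 1) ^ 2) ≤
      ∑ x ∈ Finset.range (q + 1), kap P x * DD P x ^ 2 := by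
    rw [Finset.sum_range_succ', Finset.sum_range_succ _ q]
    simp only [Nat.add_sub_cancel, Nat.add_eq_zero_iff, one_ne_zero, and_false, if_false, if_true]
    have : 0 ≤ kap P q * DD P q ^ 2 := mul_nonneg (kap_pos q).le (sq_nonneg _)
    linarith
  linarith

theorem UU_le : UU (par h) 0 ≤ J / 4 * (16 * K * u) := by
  have hη := eta_le h
  have hD : ∀ x, DD (par h) x ≤ 1 / 2 := fun x => (DD_le h x).trans (by linarith)
  have hJ : (8 : ℝ) ≤ J := by exact_mod_cast h.hJ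
  unfold UU pot
  have h1 : ∑ x ∈ Finset.Ico 0 (par h).L, flux (par h) (Gam (par h)) x / kap (par h) x ≤
      ∑ x ∈ Finset.Ico 0 (par h).L, ((J : ℝ) / 4) := by
    refine Finset.sum_le_sum fun x hx => ?_
    rw [Finset.mem_Ico] at hx
    rw [div_le_iff₀ (kap_pos x)]
    refine (gam_src hD hx.2).trans ?_
    have h2 := energy_sum h x
    have h3 := flux_H (par h) x
    have h4 := flux_H_le h x
    rw [h3] at h4
    have h5 : (AA a Λ J x) ^ 2 * (ρ : ℝ) ^ 2 * ((1 + 1 / (64 * K)) / 8) ≤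
        (AA a Λ J x) ^ 2 * ρ ^ 2 * (J / 32) := by
      refine mul_le_mul_of_nonneg_left ?_ (by positivity)
      linarith
    have h6 : (J : ℝ) / 4 * ((AA a Λ J x) ^ 2 * (ρ : ℝ) ^ 2) ≤ J / 4 * kap (par h) x :=
      mul_le_mul_of_nonneg_left (kap_ge h x) (by positivity)
    refine le_trans ?_ h6
    have h7 : 0 ≤ (J : ℝ) * ((AA a Λ J x) ^ 2 * ρ ^ 2) := by positivity
    linarith
  refine h1.trans ?_
  rw [Finset.sum_const, Nat.card_Ico, nsmul_eq_mul]
  have : (par h).L = 16 * K * u := rfl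
  rw [this, Nat.sub_zero]
  push_cast
  apply le_of_eq
  ring

theorem upos : (48 : ℝ) ≤ u := by
  have h1 := h.hu'
  have h2 : 1 ≤ R := by
    have := h.hR
    have := h.hK
    nlinarith
  have : 48 ≤ u := by omega
  exact_mod_cast this

theorem W_ge' (q : ℕ) : (a : ℝ) * ρ ≤ (par h).W q := by
  refine le_trans ?_ (W_ge h q)
  have := AA_ge h q
  gcongr

theorem dg_ge (q : ℕ) : (a : ℝ) * ρ ≤ dg (par h) q := by
  refine (W_ge' h (q + 1)).trans ?_
  unfold dg
  have : (0 : ℝ) ≤ wm (par h) q := by positivity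
  linarith

theorem hyp : Hyp (par h) (u / 8) (u / 32 + 3 * R / 8)
    (2 * ep (par h) * hh (par h) 0 / (u / 8)) := by
  have hu := upos h
  have hK : (1 : ℝ) ≤ K := by exact_mod_cast h.hK
  have ha : (1 : ℝ) ≤ a := by exact_mod_cast h.apos
  have hρ : (256 : ℝ) * K ≤ ρ := by exact_mod_cast h.ρpos
  have hρ0 : (0 : ℝ) < ρ := by linarith
  have hρ' : (256 : ℝ) ≤ ρ := by exact_mod_cast h.ρge
  have hh0 := hh_nonneg (P := par h) 0
  have hle := hh_le h
  have hep0 := ep_pos (P := par h)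
  have hep : ep (par h) ≤ 1 / (16 * ρ ^ 2) := by
    unfold ep
    rw [par_M]
    apply one_div_le_one_div_of_le (by positivity)
    linarith
  have haρ : (256 : ℝ) * K ≤ a * ρ := by nlinarith
  set c := 2 * ep (par h) * hh (par h) 0 / (u / 8) with hc
  have hc0 : 0 ≤ c := by positivity
  have hcle : c ≤ 32 * K := by
    rw [hc, div_le_iff₀ (by positivity)]
    calc 2 * ep (par h) * hh (par h) 0 ≤ 2 * (1 / (16 * ρ ^ 2)) * (2 * ρ ^ 2 * (16 * K * u)) := by
          gcongr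
      _ = 32 * K * (u / 8) := by field_simp; ring
  refine ⟨by positivity, rfl, ?_, ?_, ?_, ?_, ?_⟩
  · intro q _
    have hW := W_ge' h q
    have hd := dg_ge h q
    have haρ0 : (0 : ℝ) < a * ρ := by positivity
    have hdp := dg_pos (P := par h) q
    have h1 : c / dg (par h) q ≤ 1 / 8 := by
      rw [div_le_iff₀ hdp]
      linarith
    have h2 : hh (par h) 0 / ((par h).W q + 1) / dg (par h) q ≤ 1 / 4 := by
      rw [div_div, div_le_iff₀ (by positivity)]
      have ha2 : 8 * (16 * K * u) ≤ (a : ℝ) ^ 2 := by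
        have h3 := h.ha
        rw [← h.hL] at h3
        exact_mod_cast h3
      calc hh (par h) 0 ≤ 2 * ρ ^ 2 * (16 * K * u) := hle
        _ = 1 / 4 * (8 * (16 * K * u) * ρ ^ 2) := by ring
        _ ≤ 1 / 4 * (a ^ 2 * ρ ^ 2) := by gcongr
        _ = 1 / 4 * ((a * ρ) * (a * ρ)) := by ring
        _ ≤ 1 / 4 * (((par h).W q + 1) * dg (par h) q) := by
          gcongr
          linarith
    have h3 : ep (par h) * c ≤ 1 / 8 := by
      calc ep (par h) * c ≤ 1 / (16 * ρ ^ 2) * (32 * K) := by gcongr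
        _ = 2 * K / ρ ^ 2 := by field_simp; ring
        _ ≤ 1 / 8 := by
          rw [div_le_iff₀ (by positivity)]
          nlinarith
    rw [add_div]
    linarith
  · intro q _
    have hd := dg_ge h q
    linarith
  · refine hep.trans ?_
    apply one_div_le_one_div_of_le (by norm_num)
    nlinarith
  · intro q hq
    refine (HH_bound h hq).trans (le_of_eq ?_)
    field_simp
    ring
  · change _ ≤ (u : ℝ)
    have h1 : (24 : ℝ) * (R + 1) ≤ u := by exact_mod_cast h.hu'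
    have h2 : (0 : ℝ) ≤ R := by positivity
    linarith

/-- the lower bound for the expected capture time -/
theorem main_lower : ((4 * K * u * ρ ^ 2 : ℕ) : ENNReal) ≤
    expectedCaptureTime (Gr (par h)) (Vtx.lad 0 ⟨0, (par h).hM⟩ true)
      (Vtx.blob ⟨0, by omega⟩ ⟨0, (par h).hW 0⟩) := by
  refine le_trans ?_ (expected_ge_of_hyp (hyp h) ((par h).hW 0) (par h).hM)
  have hu := upos h
  have hK : (1 : ℝ) ≤ K := by exact_mod_cast h.hK
  have hh0 := hh_nonneg (P := par h) 0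
  have hR : 8192 * (K : ℝ) ^ 2 ≤ R := by exact_mod_cast h.hR
  have hL : 16 * (K : ℝ) * u = R * J := by exact_mod_cast h.hL
  have hR0 : (0 : ℝ) < R := by nlinarith
  have hU := UU_le h
  have hge := hh_ge h
  have h1 : hh (par h) 0 / (u / 8) ^ 2 * UU (par h) 0 ≤ hh (par h) 0 / 2 := by
    have hJ : (J : ℝ) = 16 * K * u / R := by field_simp; linarith
    calc hh (par h) 0 / (u / 8) ^ 2 * UU (par h) 0 ≤
        hh (par h) 0 / (u / 8) ^ 2 * (J / 4 * (16 * K * u)) := by gcongr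
      _ = hh (par h) 0 * (4096 * K ^ 2 / R) := by rw [hJ]; field_simp; ring
      _ ≤ hh (par h) 0 * (1 / 2) := by
        refine mul_le_mul_of_nonneg_left ?_ hh0
        rw [div_le_iff₀ hR0]; linarith
      _ = _ := by ring
  rw [← ENNReal.ofReal_natCast]
  apply ENNReal.ofReal_le_ofReal
  push_cast
  linarith

end Pool.Agent.H68.GC
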