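import Pool.Agent.H68.GC.Nbrs
import Pool.Agent.H68.GC.Lower

/-!
From a potential `Phi i q` to a lower bound for the expected capture time.
-/

namespace Pool.Agent.H68.GC

open Vtx

open Classical in
/-- supremum of the positive parts of `f i` over `i ≤ I` with `cond i` -/
noncomputable def supI (I : ℕ) (cond : ℕ → Prop) (f : ℕ → ℝ) : ℝ :=
  (Finset.range (I + 1)).sup' ⟨0, by simp⟩ (fun i => if cond i then max (f i) 0 else 0)

theorem supI_nonneg (I : ℕ) (cond : ℕ → Prop) (f : ℕ → ℝ) : 0 ≤ supI I cond f := by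
  classical
  unfold supI
  refine le_trans ?_ (Finset.le_sup' (s := Finset.range (I + 1))
    (fun i => if cond i then max (f i) 0 else 0) (b := 0) (by simp))
  split_ifs
  · exact le_max_right _ _
  · exact le_rfl

theorem le_supI {I : ℕ} {cond : ℕ → Prop} {f : ℕ → ℝ} {i : ℕ} (hi : 0 < f i → i ≤ I)
    (hc : cond i) : f i ≤ supI I cond f := by
  classical
  by_cases h : 0 < f i
  · unfold supI
    refine le_trans ?_ (Finset.le_sup' (s := Finset.range (I + 1))
      (fun i => if cond i then max (f i) 0 else 0) (b := i) (by simp; exact hi h))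
    rw [if_pos hc]
    exact le_max_left _ _
  · push Not at h
    exact h.trans (supI_nonneg _ _ _)

theorem exists_of_supI_pos {I : ℕ} {cond : ℕ → Prop} {f : ℕ → ℝ} (h : 0 < supI I cond f) :
    ∃ i, cond i ∧ 0 < f i ∧ supI I cond f = f i := by
  classical
  unfold supI at h ⊢
  obtain ⟨i, -, hi⟩ := Finset.exists_mem_eq_sup' (s := Finset.range (I + 1)) ⟨0, by simp⟩
    (fun i => if cond i then max (f i) 0 else 0)
  rw [hi] at h ⊢
  split_ifs at h ⊢ with hc
  · refine ⟨i, hc, ?_, ?_⟩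
    · rcases lt_max_iff.mp h with h | h
      · exact h
      · exact absurd h (lt_irrefl _)
    · rcases lt_max_iff.mp h with h | h
      · exact max_eq_left h.le
      · exact absurd h (lt_irrefl _)
  · exact absurd h (lt_irrefl _)

variable {P : Par}

/-- The hypotheses on the potential. -/
structure Good (P : Par) (Phi : ℕ → ℕ → ℝ) (c Bm : ℝ) : Prop where
  c_nonneg : 0 ≤ c
  B_nonneg : 0 ≤ Bm
  win : ∀ i q, q ≤ P.L → 0 < Phi i q → (P.b q : ℤ) + 4 ≤ 2 * i + 2 * P.u ∧ 2 * i + 3 ≤ P.b q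
  bound : ∀ i q, q ≤ P.L → Phi i q ≤ Bm
  last : ∀ i, Phi i P.L ≤ 0
  hb : ∀ i q, q < P.L → 0 < Phi i q → Phi i q ≤ 1 +
    ((wm P q * (Phi (i + 1) (q - 1) - c) + P.W (q + 1) * (Phi (i + 1) (q + 1) - c) +
      (Phi (i + 1) q - c - Bm / (P.W q + 1))) / dg P q +
    P.M * ((wm P q * Phi i (q - 1) + P.W (q + 1) * Phi i (q + 1) +
      (Phi (i + 1) q - c - Bm / (P.W q + 1))) / dg P q)) / (P.M + 1)
  th : ∀ i q, q < P.L → 0 < Phi i q - c → Phi i q - c ≤ 1 +
    (wm P q * Phi i (q - 1) + P.W (q + 1) * Phi i (q + 1) +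
      (Phi (i + 1) q - c - Bm / (P.W q + 1))) / dg P q

/-- The function on pairs (cop, robber). -/
noncomputable def FF (Phi : ℕ → ℕ → ℝ) (c Bm : ℝ) : Vtx P → Vtx P → ℝ
  | lad p _ s, blob q _ =>
      if s = Nat.bodd q then
        supI (P.b P.L) (fun i => ((2 * i + 1 : ℕ) : ZMod P.N) = p) (fun i => Phi (i + 1) q - c)
      else supI (P.b P.L) (fun i => ((2 * i : ℕ) : ZMod P.N) = p) (fun i => Phi i q)
  | lad p _ s, st q k =>
      if (k : ℕ) + 1 = P.len q then
        if s = Nat.bodd q then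
          supI (P.b P.L) (fun i => ((2 * i : ℕ) : ZMod P.N) = p)
            (fun i => Phi (i + 1) q - c - Bm / (P.W q + 1))
        else
          supI (P.b P.L) (fun i => ((2 * i + 1 : ℕ) : ZMod P.N) = p)
            (fun i => Phi (i + 1) q - c - Bm / (P.W q + 1))
      else 0
  | _, _ => 0

section

variable {Phi : ℕ → ℕ → ℝ} {c Bm : ℝ}

theorem FF_nonneg (v w : Vtx P) : 0 ≤ FF Phi c Bm v w := by
  rcases v with ⟨p, j, s⟩ | ⟨q, x⟩ | ⟨q, k⟩ <;> rcases w with ⟨p', j', s'⟩ | ⟨q', x'⟩ | ⟨q', k'⟩ <;>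
    simp only [FF, le_refl]
  · split_ifs <;> exact supI_nonneg _ _ _
  · split_ifs <;> first | exact supI_nonneg _ _ _ | exact le_rfl

theorem FF_hb (hG : Good P Phi c Bm) (i : ℕ) (q : Fin (P.L + 1)) (x : Fin (P.W q)) (j : Fin P.M)
    {s : Bool} (hs : s ≠ Nat.bodd q) {p : ZMod P.N} (hp : ((2 * i : ℕ) : ZMod P.N) = p) :
    Phi i q ≤ FF Phi c Bm (lad p j s) (blob q x) := by
  have hq := Nat.lt_succ_iff.mp q.2
  simp only [FF]
  rw [if_neg hs]
  refine le_supI (f := fun i => Phi i q) (fun h => ?_) hp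
  have := (hG.win i q hq h).2
  have := P.b_le hq
  omega

theorem FF_th (hG : Good P Phi c Bm) (i : ℕ) (q : Fin (P.L + 1)) (x : Fin (P.W q)) (j : Fin P.M)
    {s : Bool} (hs : s = Nat.bodd q) {p : ZMod P.N} (hp : ((2 * i + 1 : ℕ) : ZMod P.N) = p) :
    Phi (i + 1) q - c ≤ FF Phi c Bm (lad p j s) (blob q x) := by
  have hq := Nat.lt_succ_iff.mp q.2
  simp only [FF]
  rw [if_pos hs]
  refine le_supI (f := fun i => Phi (i + 1) q - c) (fun h => ?_) hp
  have := (hG.win (i + 1) q hq (by have := hG.c_nonneg; linarith)).2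
  have := P.b_le hq
  omega

theorem FF_top (hG : Good P Phi c Bm) (i : ℕ) (q : Fin (P.L + 1)) (j : Fin P.M)
    (s : Bool) {p : ZMod P.N}
    (hp : if s = Nat.bodd q then ((2 * i : ℕ) : ZMod P.N) = p
      else ((2 * i + 1 : ℕ) : ZMod P.N) = p) :
    Phi (i + 1) q - c - Bm / (P.W q + 1) ≤ FF Phi c Bm (lad p j s) (top q) := by
  have hq := Nat.lt_succ_iff.mp q.2
  have hl := P.len_ge hq
  unfold top
  simp only [FF]
  rw [if_pos (by omega)]
  have hBm : 0 ≤ Bm / (P.W q + 1) := div_nonneg hG.B_nonneg (by positivity)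
  have hi : 0 < Phi (i + 1) q - c - Bm / (P.W q + 1) → i ≤ P.b P.L := by
    intro h
    have := (hG.win (i + 1) q hq (by have := hG.c_nonneg; linarith)).2
    have := P.b_le hq
    omega
  split_ifs at hp ⊢ with h
  · exact le_supI (f := fun i => Phi (i + 1) q - c - Bm / (P.W q + 1)) hi hp
  · exact le_supI (f := fun i => Phi (i + 1) q - c - Bm / (P.W q + 1)) hi hp

theorem bodd_ne_of_adj {a b : ℕ} (h : a = b + 1 ∨ b = a + 1) : Nat.bodd a ≠ Nat.bodd b := by
  rcases h with rfl | rfl <;> rw [Nat.bodd_succ] <;> cases Nat.bodd _ <;> simp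

theorem step_hb (hG : Good P Phi c Bm) (i : ℕ) (q : Fin (P.L + 1)) (x : Fin (P.W q))
    (j : Fin P.M) {s : Bool} (hs : s ≠ Nat.bodd q) (hpos : 0 < Phi i q) :
    Phi i q ≤ 1 + (∑ c' ∈ greedySet (Gr P) (lad ((2 * i : ℕ) : ZMod P.N) j s) (blob q x),
      (∑ r' ∈ nbrs (Gr P) (blob q x), FF Phi c Bm c' r') / (nbrs (Gr P) (blob q x)).card) /
      (greedySet (Gr P) (lad ((2 * i : ℕ) : ZMod P.N) j s) (blob q x)).card := by
  have hq := Nat.lt_succ_iff.mp q.2
  have hqL : (q : ℕ) < P.L := by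
    rcases hq.lt_or_eq with h | h
    · exact h
    · have := hG.last i; rw [h] at hpos; linarith
  obtain ⟨hw1, hw2⟩ := hG.win i q hq hpos
  have hcast : ((2 * i : ℕ) : ZMod P.N) = (((2 * i : ℕ) : ℤ) : ZMod P.N) := by push_cast; rfl
  have hgs : greedySet (Gr P) (lad ((2 * i : ℕ) : ZMod P.N) j s) (blob q x) =
      optM P ((2 * i : ℕ) : ℤ) j s := by
    rw [hcast]
    exact greedy_mismatch (by norm_num) (isTarget_blob q x) _ (by push_cast; omega)
      (by push_cast; omega) j hs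
  have hb : (!s) = Nat.bodd q := by
    rcases s with _ | _ <;> rcases hq : Nat.bodd q with _ | _ <;> simp_all
  rw [hgs, sum_optM, card_optM]
  refine (hG.hb i q hqL hpos).trans ?_
  have hd := dg_pos (P := P) q
  have hfwd : (wm P q * (Phi (i + 1) (q - 1) - c) + P.W (q + 1) * (Phi (i + 1) (q + 1) - c) +
      (Phi (i + 1) q - c - Bm / (P.W q + 1))) / dg P q ≤
      (∑ r' ∈ nbrs (Gr P) (blob q x),
        FF Phi c Bm (lad ((((2 * i : ℕ) : ℤ) : ZMod P.N) + 1) j s) r') /
        (nbrs (Gr P) (blob q x)).card := by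
    apply avg_nbrs_blob q hqL x _ (fun q' => Phi (i + 1) q' - c)
    · intro q' y hq'
      apply FF_th hG
      · have := bodd_ne_of_adj hq'
        rcases s with _ | _ <;> rcases h1 : Nat.bodd q with _ | _ <;>
          rcases h2 : Nat.bodd q' with _ | _ <;> simp_all
      · push_cast; ring
    · apply FF_top hG
      rw [if_neg hs]
      push_cast; ring
  have hbk : ∀ j' : Fin P.M, (wm P q * Phi i (q - 1) + P.W (q + 1) * Phi i (q + 1) +
      (Phi (i + 1) q - c - Bm / (P.W q + 1))) / dg P q ≤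
      (∑ r' ∈ nbrs (Gr P) (blob q x),
        FF Phi c Bm (lad (((2 * i : ℕ) : ℤ) : ZMod P.N) j' (!s)) r') /
        (nbrs (Gr P) (blob q x)).card := by
    intro j'
    apply avg_nbrs_blob q hqL x _ (fun q' => Phi i q')
    · intro q' y hq'
      apply FF_hb hG
      · rw [hb]; exact (bodd_ne_of_adj hq').symm
      · push_cast; ring
    · apply FF_top hG
      rw [if_pos hb]
      push_cast; ring
  have hM : (0 : ℝ) ≤ P.M := by positivity
  have hsum : P.M * ((wm P q * Phi i (q - 1) + P.W (q + 1) * Phi i (q + 1) +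
      (Phi (i + 1) q - c - Bm / (P.W q + 1))) / dg P q) ≤
      ∑ j' : Fin P.M, (∑ r' ∈ nbrs (Gr P) (blob q x),
        FF Phi c Bm (lad (((2 * i : ℕ) : ℤ) : ZMod P.N) j' (!s)) r') /
        (nbrs (Gr P) (blob q x)).card := by
    refine le_trans ?_ (Finset.sum_le_sum fun j' _ => hbk j')
    rw [Finset.sum_const, Finset.card_univ, Fintype.card_fin, nsmul_eq_mul]
  gcongr

theorem step_th (hG : Good P Phi c Bm) (i : ℕ) (q : Fin (P.L + 1)) (x : Fin (P.W q))
    (j : Fin P.M) {s : Bool} (hs : s = Nat.bodd q) (hpos : 0 < Phi (i + 1) q - c) :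
    Phi (i + 1) q - c ≤ 1 +
      (∑ c' ∈ greedySet (Gr P) (lad ((2 * i + 1 : ℕ) : ZMod P.N) j s) (blob q x),
      (∑ r' ∈ nbrs (Gr P) (blob q x), FF Phi c Bm c' r') / (nbrs (Gr P) (blob q x)).card) /
      (greedySet (Gr P) (lad ((2 * i + 1 : ℕ) : ZMod P.N) j s) (blob q x)).card := by
  have hq := Nat.lt_succ_iff.mp q.2
  have hc := hG.c_nonneg
  have hqL : (q : ℕ) < P.L := by
    rcases hq.lt_or_eq with h | h
    · exact h
    · have := hG.last (i + 1); rw [h] at hpos; linarith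
  obtain ⟨hw1, hw2⟩ := hG.win (i + 1) q hq (by linarith)
  have hcast : ((2 * i + 1 : ℕ) : ZMod P.N) = (((2 * i + 1 : ℕ) : ℤ) : ZMod P.N) := by
    push_cast; rfl
  subst hs
  have hgs : greedySet (Gr P) (lad ((2 * i + 1 : ℕ) : ZMod P.N) j (Nat.bodd q)) (blob q x) =
      {lad ((((2 * i + 1 : ℕ) : ℤ) : ZMod P.N) + 1) j (Nat.bodd q)} := by
    rw [hcast]
    exact greedy_match (by norm_num) (isTarget_blob q x) _ (by push_cast; omega)
      (by push_cast at *; omega) j
  rw [hgs, Finset.sum_singleton, Finset.card_singleton, Nat.cast_one, div_one]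
  refine (hG.th (i + 1) q hqL hpos).trans ?_
  refine add_le_add le_rfl ?_
  apply avg_nbrs_blob q hqL x _ (fun q' => Phi (i + 1) q')
  · intro q' y hq'
    apply FF_hb hG
    · exact (bodd_ne_of_adj hq').symm
    · push_cast; ring
  · apply FF_top hG
    rw [if_pos rfl]
    push_cast; ring

theorem top_val (hG : Good P Phi c Bm) (i q : ℕ) (hq : q ≤ P.L) :
    Phi (i + 1) q - c - Bm / (P.W q + 1) ≤ P.W q * (Phi (i + 1) q - c) / (P.W q + 1) := by
  have hW : (0 : ℝ) < P.W q + 1 := by positivity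
  have h1 := hG.bound (i + 1) q hq
  have hc := hG.c_nonneg
  have h3 : P.W q * (Phi (i + 1) q - c) / (P.W q + 1) -
      (Phi (i + 1) q - c - Bm / (P.W q + 1)) = (Bm - (Phi (i + 1) q - c)) / (P.W q + 1) := by
    field_simp
    ring
  have h4 : 0 ≤ (Bm - (Phi (i + 1) q - c)) / (P.W q + 1) := div_nonneg (by linarith) hW.le
  linarith

theorem step_sb (hG : Good P Phi c Bm) (i : ℕ) (q : Fin (P.L + 1))
    (j : Fin P.M) {s : Bool} (hs : s = Nat.bodd q)
    (hpos : 0 < Phi (i + 1) q - c - Bm / (P.W q + 1)) :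
    Phi (i + 1) q - c - Bm / (P.W q + 1) ≤ 1 +
      (∑ c' ∈ greedySet (Gr P) (lad ((2 * i : ℕ) : ZMod P.N) j s) (top q),
      (∑ r' ∈ nbrs (Gr P) (top q), FF Phi c Bm c' r') / (nbrs (Gr P) (top q)).card) /
      (greedySet (Gr P) (lad ((2 * i : ℕ) : ZMod P.N) j s) (top q)).card := by
  have hq := Nat.lt_succ_iff.mp q.2
  have hc := hG.c_nonneg
  have hBm : 0 ≤ Bm / (P.W q + 1) := div_nonneg hG.B_nonneg (by positivity)
  obtain ⟨hw1, hw2⟩ := hG.win (i + 1) q hq (by linarith)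
  have hcast : ((2 * i : ℕ) : ZMod P.N) = (((2 * i : ℕ) : ℤ) : ZMod P.N) := by
    push_cast; rfl
  subst hs
  have hgs : greedySet (Gr P) (lad ((2 * i : ℕ) : ZMod P.N) j (Nat.bodd q)) (top q) =
      {lad ((((2 * i : ℕ) : ℤ) : ZMod P.N) + 1) j (Nat.bodd q)} := by
    rw [hcast]
    exact greedy_match (by norm_num) (isTarget_top' q) _ (by push_cast; omega)
      (by push_cast at *; omega) j
  rw [hgs, Finset.sum_singleton, Finset.card_singleton, Nat.cast_one, div_one]
  refine (top_val hG i q hq).trans ?_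
  have := avg_nbrs_top q (FF Phi c Bm (lad ((((2 * i : ℕ) : ℤ) : ZMod P.N) + 1) j (Nat.bodd q)))
    (fun v => FF_nonneg _ _) (Phi (i + 1) q - c) (by
      intro y
      apply FF_th hG _ _ _ _ rfl
      push_cast; ring)
  linarith

theorem step_st (hG : Good P Phi c Bm) (i : ℕ) (q : Fin (P.L + 1))
    (j : Fin P.M) {s : Bool} (hs : s ≠ Nat.bodd q)
    (hpos : 0 < Phi (i + 1) q - c - Bm / (P.W q + 1)) :
    Phi (i + 1) q - c - Bm / (P.W q + 1) ≤ 1 +
      (∑ c' ∈ greedySet (Gr P) (lad ((2 * i + 1 : ℕ) : ZMod P.N) j s) (top q),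
      (∑ r' ∈ nbrs (Gr P) (top q), FF Phi c Bm c' r') / (nbrs (Gr P) (top q)).card) /
      (greedySet (Gr P) (lad ((2 * i + 1 : ℕ) : ZMod P.N) j s) (top q)).card := by
  have hq := Nat.lt_succ_iff.mp q.2
  have hc := hG.c_nonneg
  have hBm : 0 ≤ Bm / (P.W q + 1) := div_nonneg hG.B_nonneg (by positivity)
  obtain ⟨hw1, hw2⟩ := hG.win (i + 1) q hq (by linarith)
  have hcast : ((2 * i + 1 : ℕ) : ZMod P.N) = (((2 * i + 1 : ℕ) : ℤ) : ZMod P.N) := by
    push_cast; rfl
  have hgs : greedySet (Gr P) (lad ((2 * i + 1 : ℕ) : ZMod P.N) j s) (top q) =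
      optM P ((2 * i + 1 : ℕ) : ℤ) j s := by
    rw [hcast]
    exact greedy_mismatch (by norm_num) (isTarget_top' q) _ (by push_cast at *; omega)
      (by push_cast at *; omega) j hs
  have hb : (!s) = Nat.bodd q := by
    rcases s with _ | _ <;> rcases hq : Nat.bodd q with _ | _ <;> simp_all
  rw [hgs, sum_optM, card_optM]
  refine (top_val hG i q hq).trans ?_
  set T := P.W q * (Phi (i + 1) q - c) / (P.W q + 1) with hT
  have h1 : T ≤ (∑ r' ∈ nbrs (Gr P) (top q),
      FF Phi c Bm (lad ((((2 * i + 1 : ℕ) : ℤ) : ZMod P.N) + 1) j s) r') /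
        (nbrs (Gr P) (top q)).card := by
    apply avg_nbrs_top q _ (fun v => FF_nonneg _ _)
    intro y
    have := FF_hb hG (i + 1) q y j hs (p := (((2 * i + 1 : ℕ) : ℤ) : ZMod P.N) + 1) (by
      push_cast; ring)
    linarith
  have h2 : ∀ j' : Fin P.M, T ≤ (∑ r' ∈ nbrs (Gr P) (top q),
      FF Phi c Bm (lad (((2 * i + 1 : ℕ) : ℤ) : ZMod P.N) j' (!s)) r') /
        (nbrs (Gr P) (top q)).card := by
    intro j'
    apply avg_nbrs_top q _ (fun v => FF_nonneg _ _)
    intro y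
    exact FF_th hG i q y j' hb (p := (((2 * i + 1 : ℕ) : ℤ) : ZMod P.N)) (by push_cast; ring)
  have h3 : P.M * T ≤ ∑ j' : Fin P.M, (∑ r' ∈ nbrs (Gr P) (top q),
      FF Phi c Bm (lad (((2 * i + 1 : ℕ) : ℤ) : ZMod P.N) j' (!s)) r') /
        (nbrs (Gr P) (top q)).card := by
    refine le_trans ?_ (Finset.sum_le_sum fun j' _ => h2 j')
    rw [Finset.sum_const, Finset.card_univ, Fintype.card_fin, nsmul_eq_mul]
  have hM : (0 : ℝ) < (P.M : ℝ) + 1 := by positivity
  have h4 : T ≤ ((∑ r' ∈ nbrs (Gr P) (top q),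
      FF Phi c Bm (lad ((((2 * i + 1 : ℕ) : ℤ) : ZMod P.N) + 1) j s) r') /
        (nbrs (Gr P) (top q)).card + ∑ j' : Fin P.M, (∑ r' ∈ nbrs (Gr P) (top q),
      FF Phi c Bm (lad (((2 * i + 1 : ℕ) : ℤ) : ZMod P.N) j' (!s)) r') /
        (nbrs (Gr P) (top q)).card) / (P.M + 1) := by
    rw [le_div_iff₀ hM]
    linarith
  linarith

theorem expected_ge (hG : Good P Phi c Bm) (i : ℕ) (q : Fin (P.L + 1)) (x : Fin (P.W q))
    (j : Fin P.M) {s : Bool} (hs : s ≠ Nat.bodd q) :
    ENNReal.ofReal (Phi i q) ≤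
      expectedCaptureTime (Gr P) (lad ((2 * i : ℕ) : ZMod P.N) j s) (blob q x) := by
  refine (ENNReal.ofReal_le_ofReal (FF_hb hG i q x j hs rfl)).trans ?_
  apply le_expectedCaptureTime (Gr P) (FF Phi c Bm) FF_nonneg
  · rintro (⟨p, j, s⟩ | ⟨q, x⟩ | ⟨q, k⟩) <;> rfl
  · rintro (⟨p, j, s⟩ | ⟨q, x⟩ | ⟨q, k⟩) (⟨p', j', s'⟩ | ⟨q', x'⟩ | ⟨q', k'⟩) h <;> try rfl
    · rcases h with h | h <;> exact h.elim
    · rcases h with ⟨h1, -, -⟩ | h
      · have hl := P.len_ge (Nat.lt_succ_iff.mp q'.2)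
        simp only [FF]
        rw [if_neg (by omega)]
      · exact h.elim
  · rintro (⟨p, j, s⟩ | ⟨q, x⟩ | ⟨q, k⟩) (⟨p', j', s'⟩ | ⟨q', x'⟩ | ⟨q', k'⟩) h
    · exact absurd h (lt_irrefl _)
    · simp only [FF] at h
      split_ifs at h with hs
      · obtain ⟨i, hi, hpos, heq⟩ := exists_of_supI_pos h
        have : FF Phi c Bm (lad p j s) (blob q' x') = Phi (i + 1) q' - c := by
          simp only [FF]; rw [if_pos hs]; exact heq
        rw [this, ← hi]
        exact step_th hG i q' x' j hs hpos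
      · obtain ⟨i, hi, hpos, heq⟩ := exists_of_supI_pos h
        have : FF Phi c Bm (lad p j s) (blob q' x') = Phi i q' := by
          simp only [FF]; rw [if_neg hs]; exact heq
        rw [this, ← hi]
        exact step_hb hG i q' x' j hs hpos
    · simp only [FF] at h
      split_ifs at h with hk hs
      · obtain ⟨i, hi, hpos, heq⟩ := exists_of_supI_pos h
        have h1 : FF Phi c Bm (lad p j s) (st q' k') =
            Phi (i + 1) q' - c - Bm / (P.W q' + 1) := by
          simp only [FF]; rw [if_pos hk, if_pos hs]; exact heq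
        have h2 : st q' k' = (top q' : Vtx P) := by
          unfold top; congr 1; apply Fin.ext; simp only; omega
        rw [h1, ← hi, h2]
        exact step_sb hG i q' j hs hpos
      · obtain ⟨i, hi, hpos, heq⟩ := exists_of_supI_pos h
        have h1 : FF Phi c Bm (lad p j s) (st q' k') =
            Phi (i + 1) q' - c - Bm / (P.W q' + 1) := by
          simp only [FF]; rw [if_pos hk, if_neg hs]; exact heq
        have h2 : st q' k' = (top q' : Vtx P) := by
          unfold top; congr 1; apply Fin.ext; simp only; omega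
        rw [h1, ← hi, h2]
        exact step_st hG i q' j hs hpos
      · exact absurd h (lt_irrefl _)
    all_goals exact absurd h (lt_irrefl _)

end

end Pool.Agent.H68.GC
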